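import Pool.Graph.R_pool_sql_team_seeded_843ab51a.V1120.TC.Graph

/-!
# Monochromatic cycle partitions: definitions, and the lower bound from the label construction
-/

set_option autoImplicit false

open Filter Topology
open scoped ENNReal

namespace Pool.Agent.H25.CP

/-- A monochromatic cycle of the `r`-edge-coloured graph `(G, χ)`: a subgraph all of whose edges have one colour and which
is a cycle, where the empty graph, a single vertex and a single edge each count as a cycle. -/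
def IsMonoCycle {V : Type} {G : SimpleGraph V} {r : ℕ} (χ : G.EdgeLabeling (Fin r)) (H : G.Subgraph) : Prop :=
  (H = ⊥ ∨ (∃ v : V, H = G.singletonSubgraph v) ∨ (∃ (u v : V) (h : G.Adj u v), H = G.subgraphOfAdj h) ∨
    ∃ (v : V) (w : G.Walk v v), w.IsCycle ∧ H = w.toSubgraph) ∧
  ∃ c : Fin r, ∀ e : G.edgeSet, (e : Sym2 V) ∈ H.edgeSet → χ e = c

/-- There are `k` pairwise vertex-disjoint monochromatic cycles whose vertex sets together cover all the vertices. -/
def HasCyclePartition {V : Type} {G : SimpleGraph V} {r : ℕ} (χ : G.EdgeLabeling (Fin r)) (k : ℕ) : Prop :=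
  ∃ F : Fin k → G.Subgraph, (∀ i, IsMonoCycle χ (F i)) ∧
    (∀ i j, i ≠ j → Disjoint (F i).verts (F j).verts) ∧ ∀ v : V, ∃ i, v ∈ (F i).verts

/-- `cp(G)`: the least number of cycles in such a partition. -/
noncomputable def cp {V : Type} {G : SimpleGraph V} {r : ℕ} (χ : G.EdgeLabeling (Fin r)) : ℕ∞ :=
  ⨅ (k : ℕ) (_ : HasCyclePartition χ k), (k : ℕ∞)

/-- `cp_r(δ)`: the limsup over `n` of the maximum of `cp(G)` over the `r`-edge-coloured graphs `G` on `n` vertices of minimum
degree at least `(1 - δ) n`. -/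
noncomputable def cpr (r : ℕ) (δ : ℝ) : ℕ∞ :=
  limsup (fun n : ℕ => ⨆ (G : SimpleGraph (Fin n)) (χ : G.EdgeLabeling (Fin r))
    (_ : ∀ v, (1 - δ) * n ≤ ((G.neighborSet v).ncard : ℝ)), cp χ) atTop

/-- the affirmative answer to Q1 -/
def Q1 : Prop :=
  ∃ K : ℝ, 0 < K ∧ ∀ r : ℕ, 2 ≤ r → ∀ δ : ℝ, 0 < δ → δ < 1 / 2 →
    ((cpr r δ : ℕ∞) : ℝ≥0∞) ≤ ENNReal.ofReal (K * (r * ((⌈(r : ℝ) / Real.log (1 / δ)⌉ : ℤ) : ℝ)))

open Pool.Agent.V1120.TC

lemma cyc_preconnected {V : Type} {G : SimpleGraph V} {r : ℕ} (χ : G.EdgeLabeling (Fin r)) (H : G.Subgraph)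
    (h : IsMonoCycle χ H) : H.coe.Preconnected := by
  obtain ⟨h, -⟩ := h
  rcases h with h | ⟨v, h⟩ | ⟨u, v, huv, h⟩ | ⟨v, w, _, h⟩
  · subst h
    rintro ⟨x, hx⟩
    exact absurd hx (by simp)
  · subst h
    exact SimpleGraph.Subgraph.singletonSubgraph_connected.coe.preconnected
  · subst h
    exact (SimpleGraph.Subgraph.subgraphOfAdj_connected huv).coe.preconnected
  · subst h
    exact w.toSubgraph_connected.coe.preconnected

/-- lower bound for the size of covers by monochromatic cycles -/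
lemma cover_bound_cyc {V : Type} {S : Type} {r : ℕ} (lab : V → Fin r → Option S) (B : ℕ)
    (htest : ∀ P : Finset (Fin r × S), P.card < B → ∃ t : Fin B → V, Function.Injective t ∧
      ∀ l c s, lab (t l) c = some s → (c, s) ∉ P)
    (k : ℕ) (hk : HasCyclePartition (labCol lab) k) : B ≤ k := by
  classical
  by_contra hcon
  push Not at hcon
  obtain ⟨F, hF, -, hcov⟩ := hk
  let pt : Fin k → Finset (Fin r × S) := fun i =>
    if h : ∃ p : Fin r × S, ∀ v ∈ (F i).verts, lab v p.1 = some p.2 then {Classical.choose h} else ∅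
  have hpt : ∀ i, (pt i).card ≤ 1 := by
    intro i
    simp only [pt]
    split_ifs <;> simp
  let P : Finset (Fin r × S) := Finset.univ.biUnion pt
  have hP : P.card < B := by
    refine lt_of_le_of_lt ?_ hcon
    calc P.card ≤ ∑ i : Fin k, (pt i).card := Finset.card_biUnion_le
      _ ≤ ∑ i : Fin k, 1 := Finset.sum_le_sum fun i _ => hpt i
      _ = k := by simp
  obtain ⟨t, ht, htP⟩ := htest P hP
  choose T hT using hcov
  have hsingle : ∀ l, ∀ w ∈ (F (T (t l))).verts, w = t l := by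
    intro l w hw
    by_contra hne
    have hTv := hT (t l)
    obtain ⟨c, hc⟩ := (hF (T (t l))).2
    have hconn : (F (T (t l))).coe.Connected := by
      have : Nonempty (F (T (t l))).verts := ⟨⟨_, hTv⟩⟩
      exact ⟨cyc_preconnected (labCol lab) _ (hF (T (t l)))⟩
    obtain ⟨s, hs⟩ := mono_label lab (F (T (t l))) hconn c hc w (t l) hw hTv hne
    have hex : ∃ p : Fin r × S, ∀ v ∈ (F (T (t l))).verts, lab v p.1 = some p.2 := ⟨(c, s), hs⟩
    have h3 := Classical.choose_spec hex (t l) hTv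
    apply htP l _ _ h3
    apply Finset.mem_biUnion.mpr
    refine ⟨T (t l), Finset.mem_univ _, ?_⟩
    simp only [pt]
    rw [dif_pos hex]
    simp
  have hinj : Function.Injective (fun l : Fin B => T (t l)) := by
    intro l l' hll
    have h3 : T (t l) = T (t l') := hll
    have h4 : t l' ∈ (F (T (t l))).verts := by rw [h3]; exact hT (t l')
    exact ht (hsingle l _ h4).symm
  have h5 := Fintype.card_le_of_injective _ hinj
  rw [Fintype.card_fin, Fintype.card_fin] at h5
  omega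

/-- the construction of the library, for cycle partitions -/
lemma cpr_ge (K d : ℕ) (hK : 1 ≤ K) (hd : 1 ≤ d) (g : ℕ) (hg : g.Prime) (hdF : 2 * d ≤ g)
    (hρ : rho K d g * Real.exp (2 * (K * d : ℝ)) ≤ 1 / 8)
    (δ : ℝ) (hδ0 : 0 < δ) (hδ1 : δ < 1)
    (hδ : 2 / (d : ℝ) + rho K d g + Real.exp (-(Real.exp (K / 2 : ℝ) / 16)) ≤ δ / 2)
    (r : ℕ) (hr : (K + 1) * g + 1 ≤ r) :
    ((g ^ 2 / 8 + 1 : ℕ) : ℕ∞) ≤ cpr r δ := by
  have : Fact g.Prime := ⟨hg⟩
  set B : ℕ := g ^ 2 / 8 + 1 with hB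
  refine le_limsup_of_frequently_le ?_ (isBoundedUnder_of ⟨⊤, fun _ => le_top⟩)
  rw [frequently_atTop]
  intro n₀
  obtain ⟨n, hn, lab, hdeg, htest⟩ := construct (F := ZMod g) K d hK hd
    (by rw [ZMod.card]; exact hdF) B (by omega) (by rw [ZMod.card]; omega)
    (by rw [ZMod.card]; exact hρ) δ hδ0 hδ1 (by rw [ZMod.card]; exact hδ) r
    (by rw [ZMod.card]; exact hr) n₀
  refine ⟨n, hn, ?_⟩
  refine le_trans ?_ (le_iSup_of_le (labGraph lab) (le_iSup_of_le (labCol lab)
    (le_iSup_of_le hdeg le_rfl)))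
  unfold cp
  refine le_iInf fun k => le_iInf fun hk => ?_
  have := cover_bound_cyc lab B htest k hk
  exact_mod_cast this

end Pool.Agent.H25.CP
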