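import Pool.Agent.H25.CP.Sharp

/-!
# The second moment of the fragment size is at most a constant times `√n`
-/

set_option autoImplicit false
set_option linter.unusedSectionVars false

open Classical Filter

namespace Pool.Agent.H25.CP

open Pool.Agent.Results.MP_572a82_pr.FragmentSize

section

variable {V : Type*} [Fintype V]

/-- pointwise bound for the square of the fragment size -/
lemma fr_sq_le2 [Nonempty V] {A : Finset (SimpleGraph V)} {k0 : ℕ} (hk0 : 1 ≤ k0) {G : SimpleGraph V} (hG : G ∈ A) :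
    Fintype.card V * fr G ^ 2 ≤ Fintype.card V * (4 * k0 * fr G) +
      ∑ i ∈ Finset.range (Nat.log 2 (Fintype.card V / (4 * k0)) + 1),
        (288 * ((2 ^ i * k0) * ((E1 A (2 ^ i * k0)).filter fun t => t.1 = G).card) +
        Fintype.card V * (if G ∈ Z A (4 * (2 ^ i * k0)) (2 ^ i * k0) then 64 * (2 ^ i * k0) ^ 2 else 0)) := by
  set n := Fintype.card V with hn
  rcases lt_or_ge (fr G) (4 * k0) with hlt | hge
  · have : fr G ^ 2 ≤ 4 * k0 * fr G := by
      rw [pow_two]
      exact Nat.mul_le_mul_right _ hlt.le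
    exact (Nat.mul_le_mul_left n this).trans (Nat.le_add_right _ _)
  · have hq : fr G / (4 * k0) ≠ 0 := by
      have := Nat.div_pos hge (by omega)
      omega
    set i := Nat.log 2 (fr G / (4 * k0)) with hi
    have h1 : 2 ^ i ≤ fr G / (4 * k0) := Nat.pow_log_le_self 2 hq
    have h2 : fr G / (4 * k0) < 2 ^ (i + 1) := Nat.lt_pow_succ_log_self (by norm_num) _
    have h1' : 2 ^ i * (4 * k0) ≤ fr G := (Nat.le_div_iff_mul_le (by omega)).1 h1
    have h2' : fr G < 2 ^ (i + 1) * (4 * k0) := (Nat.div_lt_iff_lt_mul (by omega)).1 h2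
    set K := 2 ^ i * k0 with hK
    have h3 : 4 * K ≤ fr G := by
      calc 4 * K = 2 ^ i * (4 * k0) := by rw [hK]; ring
        _ ≤ _ := h1'
    have h4 : fr G ≤ 8 * K := by
      calc fr G ≤ 2 ^ (i + 1) * (4 * k0) := h2'.le
        _ = 8 * K := by rw [hK, pow_succ]; ring
    have hiI : i ∈ Finset.range (Nat.log 2 (n / (4 * k0)) + 1) := by
      rw [Finset.mem_range, Nat.lt_succ_iff]
      apply Nat.log_mono_right
      exact Nat.div_le_div_right (fr_le G)
    have h5 := Finset.single_le_sum (f := fun i : ℕ =>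
        (288 * ((2 ^ i * k0) * ((E1 A (2 ^ i * k0)).filter fun t => t.1 = G).card) +
        n * (if G ∈ Z A (4 * (2 ^ i * k0)) (2 ^ i * k0) then 64 * (2 ^ i * k0) ^ 2 else 0)))
          (fun j _ => Nat.zero_le _) hiI
    refine le_trans ?_ (h5.trans (Nat.le_add_left _ _))
    by_cases hZ : G ∈ Z A (4 * K) K
    · have h6 : fr G ^ 2 ≤ 64 * K ^ 2 := by
        calc fr G ^ 2 ≤ (8 * K) ^ 2 := Nat.pow_le_pow_left h4 2
          _ = _ := by ring
      rw [if_pos hZ]
      exact (Nat.mul_le_mul_left n h6).trans (Nat.le_add_left _ _)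
    · have hex : ∃ u v, ¬ G.Reachable u v ∧ K ≤ cs G u ∧ K ≤ cs G v := by
        by_contra hcon
        apply hZ
        simp only [Z, Finset.mem_filter]
        refine ⟨hG, h3, fun u v huv h5 => hcon ⟨u, v, huv, h5⟩⟩
      obtain ⟨h5, h6⟩ := pairs_ge hG (le_refl K) hex
      rw [← hn] at h5 h6
      set r := n - fr G with hr
      have h7 : n ≤ 9 * r := by
        have := fr_le G
        omega
      refine le_trans ?_ (Nat.le_add_right _ _)
      calc n * fr G ^ 2 ≤ (9 * r) * (8 * K) ^ 2 := Nat.mul_le_mul h7 (Nat.pow_le_pow_left h4 2)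
        _ = 288 * (K * (2 * (K * r))) := by ring
        _ ≤ _ := Nat.mul_le_mul_left _ (Nat.mul_le_mul_left _ h6)

/-- the sum of the squares -/
lemma sum_sq_le2 [Nonempty V] {A : Finset (SimpleGraph V)} (hA : BA A) {k0 : ℕ} (hk0 : 1 ≤ k0) :
    Fintype.card V * ∑ G ∈ A, fr G ^ 2 ≤ Fintype.card V * (4 * k0 * (2 * A.card)) +
      (288 * ∑ i ∈ Finset.range (Nat.log 2 (Fintype.card V / (4 * k0)) + 1),
        (2 ^ i * k0) * (E1 A (2 ^ i * k0)).card +
      Fintype.card V * ((Nat.log 2 (Fintype.card V / (4 * k0)) + 1) * (32 * A.card))) := by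
  set n := Fintype.card V with hn
  set I := Nat.log 2 (n / (4 * k0)) with hI
  have h2 := Finset.sum_le_sum (s := A) fun G hG => fr_sq_le2 hk0 hG
  rw [← Finset.mul_sum] at h2
  refine h2.trans ?_
  rw [← hn, ← hI, Finset.sum_add_distrib, ← Finset.mul_sum, ← Finset.mul_sum, Finset.sum_comm]
  apply Nat.add_le_add
  · exact Nat.mul_le_mul_left _ (Nat.mul_le_mul_left _ (sum_fr_le hA))
  · have h3 : ∀ i ∈ Finset.range (I + 1),
        (∑ G ∈ A, (288 * ((2 ^ i * k0) * ((E1 A (2 ^ i * k0)).filter fun t => t.1 = G).card) +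
        n * (if G ∈ Z A (4 * (2 ^ i * k0)) (2 ^ i * k0) then 64 * (2 ^ i * k0) ^ 2 else 0))) ≤
        288 * ((2 ^ i * k0) * (E1 A (2 ^ i * k0)).card) + n * (32 * A.card) := by
      intro i _
      set K := 2 ^ i * k0 with hK
      have h1 : (E1 A K).card = ∑ G ∈ A, ((E1 A K).filter fun t => t.1 = G).card :=
        Finset.card_eq_sum_card_fiberwise (f := fun t : SimpleGraph V × V × V => t.1) (t := A) (fun t ht => by
          have := (mem_E1.1 ht).1
          exact this)
      rw [Finset.sum_add_distrib, ← Finset.mul_sum, ← Finset.mul_sum, ← Finset.mul_sum, ← h1]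
      apply Nat.add_le_add_left
      apply Nat.mul_le_mul_left
      rw [← Finset.sum_filter, Finset.sum_const, smul_eq_mul]
      have h4 : A.filter (fun G => G ∈ Z A (4 * K) K) ⊆ Z A (4 * K) K := fun G hG => (Finset.mem_filter.1 hG).2
      have h5 := card_Z hA (f := 4 * K) (k := K) le_rfl
      calc (A.filter fun G => G ∈ Z A (4 * K) K).card * (64 * K ^ 2)
          ≤ (Z A (4 * K) K).card * (64 * K ^ 2) := Nat.mul_le_mul_right _ (Finset.card_le_card h4)
        _ = 4 * ((Z A (4 * K) K).card * (4 * K * (4 * K))) := by ring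
        _ ≤ 4 * (8 * A.card) := Nat.mul_le_mul_left 4 h5
        _ = _ := by ring
    refine (Finset.sum_le_sum h3).trans (le_of_eq ?_)
    rw [Finset.sum_add_distrib, Finset.sum_const, Finset.card_range, smul_eq_mul, ← Finset.mul_sum]
    ring

lemma geo1 (x : ℝ) (I : ℕ) : ∑ i ∈ Finset.range (I + 1), (2 : ℝ) ^ i * x = 2 * (2 ^ I * x) - x := by
  induction I with
  | zero => simp; ring
  | succ I ih =>
    rw [Finset.sum_range_succ, ih, pow_succ]
    ring

lemma geo2 (x : ℝ) (I : ℕ) : ∑ i ∈ Finset.range (I + 1), x / (2 : ℝ) ^ i = 2 * x - x / 2 ^ I := by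
  induction I with
  | zero => simp; ring
  | succ I ih =>
    rw [Finset.sum_range_succ, ih, pow_succ]
    field_simp
    ring

lemma geo3 (x : ℝ) (hx : 0 ≤ x) (I : ℕ) :
    ∑ i ∈ Finset.range (I + 1), √((2 : ℝ) ^ i * x) ≤ 4 * √(2 ^ I * x) := by
  induction I with
  | zero =>
    simp only [zero_add, Finset.range_one, Finset.sum_singleton, pow_zero, one_mul]
    linarith [Real.sqrt_nonneg x]
  | succ I ih =>
    rw [Finset.sum_range_succ]
    have h1 : √((2 : ℝ) ^ (I + 1) * x) = √2 * √(2 ^ I * x) := by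
      rw [pow_succ, mul_comm ((2 : ℝ) ^ I) 2, mul_assoc, Real.sqrt_mul (by norm_num : (0 : ℝ) ≤ 2)]
    have h2 : (4 / 3 : ℝ) ≤ √2 := by
      rw [Real.le_sqrt' (by norm_num)]
      norm_num
    have h3 := Real.sqrt_nonneg ((2 : ℝ) ^ I * x)
    rw [h1]
    nlinarith

/-- the bound of one scale -/
lemma scale [Nonempty V] {A : Finset (SimpleGraph V)} (hA : BA A) (hne : A.Nonempty) {k : ℕ}
    (hk1 : 1 ≤ k) {n K : ℝ} (hn : n = Fintype.card V) (hK1 : K = k) (hKn : K ≤ n) :
    K * ((E1 A k).card : ℝ) ≤ (10 * K + 2 * n + 4 * n ^ 2 / K + 7 * n * √K) * A.card := by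
  have hn0 : 0 < n := by
    rw [hn]
    exact_mod_cast Fintype.card_pos
  have hK10 : 0 < K := by
    rw [hK1]
    exact_mod_cast hk1
  have ha : (0 : ℝ) < A.card := by
    exact_mod_cast Finset.card_pos.2 hne
  have h := W_sharp hA hne hk1 hn hK1 hKn
  rw [div_le_iff₀ ha] at h
  have h1 : K * √(48 * n ^ 2 / K) ≤ 7 * n * √K := by
    have hs : √K * √K = K := Real.mul_self_sqrt hK10.le
    have hs0 : 0 < √K := Real.sqrt_pos.2 hK10
    have e1 : √(48 * n ^ 2 / K) ≤ 7 * n / √K := by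
      rw [Real.sqrt_le_left (by positivity), div_pow, Real.sq_sqrt hK10.le]
      apply div_le_div_of_nonneg_right _ hK10.le
      nlinarith [sq_nonneg n]
    calc K * √(48 * n ^ 2 / K) ≤ K * (7 * n / √K) := mul_le_mul_of_nonneg_left e1 hK10.le
      _ = (√K * √K) * (7 * n / √K) := by rw [hs]
      _ = 7 * n * √K := by field_simp
  calc K * ((E1 A k).card : ℝ) ≤ K * (((10 + 2 * n / K + 4 * n ^ 2 / K ^ 2) + √(48 * n ^ 2 / K)) * A.card) :=
        mul_le_mul_of_nonneg_left h hK10.le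
    _ = (10 * K + 2 * n + 4 * n ^ 2 / K + K * √(48 * n ^ 2 / K)) * A.card := by
        field_simp
    _ ≤ _ := by
        apply mul_le_mul_of_nonneg_right _ ha.le
        linarith

/-- the second moment -/
lemma second2 [Nonempty V] {A : Finset (SimpleGraph V)} (hA : BA A) (hne : A.Nonempty)
    {r : ℝ} (hr1 : 1 ≤ r) (hn : r ^ 2 = Fintype.card V) :
    ∑ G ∈ A, (fr G : ℝ) ^ 2 ≤ 7250 * r * A.card := by
  have hr0 : 0 < r := by linarith
  have ha : (0 : ℝ) < A.card := by
    exact_mod_cast Finset.card_pos.2 hne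
  rcases lt_or_ge r 5 with hr | hr
  · have h1 : ∑ G ∈ A, (fr G : ℝ) ^ 2 ≤ r ^ 2 * ∑ G ∈ A, (fr G : ℝ) := by
      rw [Finset.mul_sum]
      apply Finset.sum_le_sum
      intro G _
      have h2 : (fr G : ℝ) ≤ r ^ 2 := by
        rw [hn]
        exact_mod_cast fr_le G
      nlinarith [(Nat.cast_nonneg (fr G) : (0 : ℝ) ≤ fr G)]
    have h2 : ∑ G ∈ A, (fr G : ℝ) ≤ 2 * A.card := by
      exact_mod_cast sum_fr_le hA
    calc _ ≤ r ^ 2 * (2 * A.card) := h1.trans (mul_le_mul_of_nonneg_left h2 (by positivity))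
      _ = (2 * r) * (r * A.card) := by ring
      _ ≤ 7250 * (r * A.card) := mul_le_mul_of_nonneg_right (by linarith) (by positivity)
      _ = _ := by ring
  · set k0 : ℕ := ⌈r⌉₊ with hk0def
    have g1 : r ≤ k0 := Nat.le_ceil _
    have g2 : (k0 : ℝ) ≤ r + 1 := (Nat.ceil_lt_add_one hr0.le).le
    have hk0 : 1 ≤ k0 := Nat.one_le_ceil_iff.mpr hr0
    set n := Fintype.card V with hnn
    set I := Nat.log 2 (n / (4 * k0)) with hI
    have g3 : 4 * k0 ≤ n := by
      have : (4 * k0 : ℝ) ≤ n := by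
        rw [← hn]
        nlinarith
      exact_mod_cast this
    have g4 : 2 ^ I * (4 * k0) ≤ n := by
      have e1 : n / (4 * k0) ≠ 0 := by
        have := Nat.div_pos g3 (by omega)
        omega
      exact (Nat.le_div_iff_mul_le (by omega)).1 (Nat.pow_log_le_self 2 e1)
    have g5 : (2 : ℝ) ^ I * k0 ≤ r ^ 2 / 4 := by
      have : (2 : ℝ) ^ I * (4 * k0) ≤ r ^ 2 := by
        rw [hn]
        exact_mod_cast g4
      linarith
    have p2 : (0 : ℝ) < 2 ^ I := by positivity
    have g6 : ((I : ℝ) + 1) ≤ r := by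
      have e2 : 4 * ((I : ℝ) + 1) ^ 2 ≤ 9 * 2 ^ I := by exact_mod_cast sq_le_pow I
      have e3 : (2 : ℝ) ^ I ≤ r / 4 := by
        have : (2 : ℝ) ^ I * r ≤ (r / 4) * r := by
          calc (2 : ℝ) ^ I * r ≤ 2 ^ I * k0 := mul_le_mul_of_nonneg_left g1 p2.le
            _ ≤ r ^ 2 / 4 := g5
            _ = _ := by ring
        exact le_of_mul_le_mul_right this hr0
      have e4 : ((I : ℝ) + 1) ^ 2 ≤ r ^ 2 := by nlinarith
      exact (sq_le_sq₀ (by positivity) (by positivity)).1 e4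
    have hmain := sum_sq_le2 hA hk0
    rw [← hnn, ← hI] at hmain
    have hmain' : r ^ 2 * ∑ G ∈ A, (fr G : ℝ) ^ 2 ≤ r ^ 2 * (4 * k0 * (2 * A.card)) +
        (288 * ∑ i ∈ Finset.range (I + 1), ((2 : ℝ) ^ i * k0) * (E1 A (2 ^ i * k0)).card +
        r ^ 2 * (((I : ℝ) + 1) * (32 * A.card))) := by
      rw [hn]
      exact_mod_cast hmain
    have hsc : ∑ i ∈ Finset.range (I + 1), ((2 : ℝ) ^ i * k0) * ((E1 A (2 ^ i * k0)).card : ℝ) ≤
        25 * r ^ 3 * A.card := by
      have e1 : ∀ i ∈ Finset.range (I + 1), ((2 : ℝ) ^ i * k0) * ((E1 A (2 ^ i * k0)).card : ℝ) ≤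
          (10 * (2 ^ i * k0) + 2 * r ^ 2 + 4 * (r ^ 2) ^ 2 / k0 / 2 ^ i + 7 * r ^ 2 * √(2 ^ i * k0)) * A.card := by
        intro i hi
        rw [Finset.mem_range, Nat.lt_succ_iff] at hi
        have hki : 1 ≤ 2 ^ i * k0 := Nat.mul_pos (by positivity) hk0
        have hle : ((2 : ℝ) ^ i * k0) ≤ r ^ 2 := by
          have : (2 : ℝ) ^ i * k0 ≤ 2 ^ I * k0 :=
            mul_le_mul_of_nonneg_right (pow_le_pow_right₀ (by norm_num) hi) (by positivity)
          nlinarith
        have := scale hA hne hki (n := r ^ 2) (K := (2 : ℝ) ^ i * k0) (by rw [hn]) (by push_cast; ring) hle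
        refine this.trans (le_of_eq ?_)
        congr 1
        congr 1
        congr 1
        rw [div_div, mul_comm (k0 : ℝ)]
      refine (Finset.sum_le_sum e1).trans ?_
      rw [← Finset.sum_mul]
      apply mul_le_mul_of_nonneg_right _ ha.le
      rw [Finset.sum_add_distrib, Finset.sum_add_distrib, Finset.sum_add_distrib, ← Finset.mul_sum,
        ← Finset.mul_sum, geo1, geo2, Finset.sum_const, Finset.card_range, nsmul_eq_mul]
      have e2 := geo3 (k0 : ℝ) (by positivity) I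
      have e3 : √((2 : ℝ) ^ I * k0) ≤ r / 2 := by
        rw [Real.sqrt_le_left (by positivity)]
        calc (2 : ℝ) ^ I * k0 ≤ r ^ 2 / 4 := g5
          _ = (r / 2) ^ 2 := by ring
      have e4 : 4 * (r ^ 2) ^ 2 / (k0 : ℝ) ≤ 4 * r ^ 3 := by
        rw [div_le_iff₀ (by positivity)]
        calc 4 * (r ^ 2) ^ 2 = 4 * r ^ 3 * r := by ring
          _ ≤ 4 * r ^ 3 * k0 := mul_le_mul_of_nonneg_left g1 (by positivity)
      have e5 : 0 ≤ 4 * (r ^ 2) ^ 2 / (k0 : ℝ) / 2 ^ I := by positivity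
      have e6 : 7 * r ^ 2 * ∑ i ∈ Finset.range (I + 1), √((2 : ℝ) ^ i * k0) ≤ 14 * r ^ 3 := by
        calc _ ≤ 7 * r ^ 2 * (4 * (r / 2)) := by
              apply mul_le_mul_of_nonneg_left _ (by positivity)
              linarith
          _ = _ := by ring
      have e7 : ((I + 1 : ℕ) : ℝ) * (2 * r ^ 2) ≤ 2 * r ^ 3 := by
        push_cast
        calc ((I : ℝ) + 1) * (2 * r ^ 2) ≤ r * (2 * r ^ 2) := mul_le_mul_of_nonneg_right g6 (by positivity)
          _ = _ := by ring
      have e8 : 5 * r ^ 2 ≤ r ^ 3 := by nlinarith [sq_nonneg r]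
      have e9 : (0 : ℝ) ≤ k0 := by positivity
      rw [Finset.mul_sum] at e6
      linarith
    have hfin : r ^ 2 * ∑ G ∈ A, (fr G : ℝ) ^ 2 ≤ r ^ 2 * (7250 * r * A.card) := by
      refine hmain'.trans ?_
      have e1 : r ^ 2 * (4 * k0 * (2 * A.card)) ≤ 10 * r ^ 3 * A.card := by
        calc r ^ 2 * (4 * k0 * (2 * A.card)) = (8 * k0) * (r ^ 2 * A.card) := by ring
          _ ≤ (10 * r) * (r ^ 2 * A.card) := mul_le_mul_of_nonneg_right (by linarith) (by positivity)
          _ = _ := by ring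
      have e2 : r ^ 2 * (((I : ℝ) + 1) * (32 * A.card)) ≤ 32 * r ^ 3 * A.card := by
        calc r ^ 2 * (((I : ℝ) + 1) * (32 * A.card)) = ((I : ℝ) + 1) * (32 * r ^ 2 * A.card) := by ring
          _ ≤ r * (32 * r ^ 2 * A.card) := mul_le_mul_of_nonneg_right g6 (by positivity)
          _ = _ := by ring
      have e3 : (0 : ℝ) ≤ r ^ 3 * A.card := by positivity
      nlinarith
    exact le_of_mul_le_mul_left hfin (by positivity)

/-- the mean -/
lemma mean2 [Nonempty V] {A : Finset (SimpleGraph V)} (hA : BA A) (hne : A.Nonempty)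
    {r : ℝ} (hr1 : 1 ≤ r) (hn : r ^ 2 = Fintype.card V) :
    (∑ G ∈ A, (fr G : ℝ)) / A.card ≤ 1 + 7250 / r := by
  have hr0 : 0 < r := by linarith
  have h1 := second2 hA hne hr1 hn
  have h2 : r ^ 2 * ∑ G ∈ A, (fr G : ℝ) ≤ r ^ 2 * A.card + ∑ G ∈ A, (fr G : ℝ) ^ 2 := by
    have := sum_fr_sq hA
    rw [hn]
    exact_mod_cast this
  have ha : (0 : ℝ) < A.card := by
    exact_mod_cast Finset.card_pos.2 hne
  rw [div_le_iff₀ ha]
  have h3 : r ^ 2 * ∑ G ∈ A, (fr G : ℝ) ≤ r ^ 2 * ((1 + 7250 / r) * A.card) := by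
    refine h2.trans ((add_le_add_right h1 _).trans (le_of_eq ?_))
    field_simp
  exact le_of_mul_le_mul_left h3 (by positivity)

end

end Pool.Agent.H25.CP
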