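import Pool.Agent.H25.CP.Skel

/-!
# Better bounds for the numbers of pairs in large components
-/

set_option autoImplicit false
set_option linter.unusedSectionVars false

open Classical Filter

namespace Pool.Agent.H25.CP

open Pool.Agent.Results.MP_572a82_pr.FragmentSize

section

variable {V : Type*} [Fintype V]

/-- the number of large bridges -/
lemma card_MS' {G : SimpleGraph V} {k : ℕ} (hk : 1 ≤ k) (c0 : V) (h : ∀ x y, Big G k x y → G.Reachable c0 x) :
    (MS G k).card * k ≤ 2 * k + 2 * (2 * (Finset.univ.filter fun x => N2 G k x).card * k + Fintype.card V) := by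
  set N := Finset.univ.filter fun x => N2 G k x
  set S1 := (MS G k).filter fun p => N2 G k p.1
  set S2 := (MS G k).filter fun p => N2 G k p.2
  set S0 := (MS G k).filter fun p => ¬ N2 G k p.1 ∧ ¬ N2 G k p.2
  have hsub : MS G k ⊆ (S1 ∪ S2) ∪ S0 := by
    intro p hp
    by_cases h1 : N2 G k p.1
    · simp [S1, hp, h1]
    by_cases h2 : N2 G k p.2
    · simp [S2, hp, h2]
    simp [S0, hp, h1, h2]
  have hS1 : S1.card * k ≤ 2 * N.card * k + Fintype.card V := by
    have : S1.card ≤ ∑ x ∈ N, (nb G k x).card := by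
      rw [← Finset.card_sigma]
      apply Finset.card_le_card_of_injOn (fun p => (⟨p.1, p.2⟩ : Sigma fun _ : V => V))
      · rintro ⟨x, y⟩ hp
        simp only [S1, MS, Finset.coe_filter, Finset.mem_filter, Finset.mem_univ, true_and,
          Set.mem_ofPred_eq] at hp
        simp only [Finset.coe_sigma, Set.mem_sigma_iff, Finset.mem_coe, Finset.mem_filter, Finset.mem_univ, true_and,
          N, mem_nb]
        exact ⟨hp.2, hp.1.1, hp.1.2.2⟩
      · rintro ⟨x, y⟩ _ ⟨x', y'⟩ _ heq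
        simp only [Sigma.mk.injEq, heq_eq_eq] at heq
        rw [heq.1, heq.2]
    exact (Nat.mul_le_mul_right k this).trans (sum_nb G k hk N)
  have hS2 : S2.card ≤ S1.card := by
    apply Finset.card_le_card_of_injOn (fun p => (p.2, p.1))
    · rintro ⟨x, y⟩ hp
      simp only [S2, MS, Finset.coe_filter, Finset.mem_filter, Finset.mem_univ, true_and,
        Set.mem_ofPred_eq] at hp
      simp only [S1, MS, Finset.coe_filter, Finset.mem_filter, Finset.mem_univ, true_and,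
        Set.mem_ofPred_eq]
      exact ⟨hp.1.symm, hp.2⟩
    · rintro ⟨x, y⟩ _ ⟨x', y'⟩ _ heq
      simp only [Prod.mk.injEq] at heq
      rw [heq.1, heq.2]
  have hS0 : S0.card ≤ 2 := by
    rcases S0.eq_empty_or_nonempty with h0 | ⟨⟨x, y⟩, hp⟩
    · rw [h0]; simp
    · have hsub0 : S0 ⊆ {(x, y), (y, x)} := by
        rintro ⟨x', y'⟩ hq
        simp only [S0, MS, Finset.mem_filter, Finset.mem_univ, true_and] at hp hq
        by_contra hcon
        simp only [Finset.mem_insert, Finset.mem_singleton, Prod.mk.injEq, not_or] at hcon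
        rcases n2_of_two hp.1 hq.1 ((h x y hp.1).symm.trans (h x' y' hq.1)) hcon.1 hcon.2 with h1 | h1
        · exact hp.2.1 h1
        · exact hp.2.2 h1
      exact (Finset.card_le_card hsub0).trans Finset.card_le_two
  have hc : (MS G k).card ≤ S1.card + S2.card + S0.card :=
    (Finset.card_le_card hsub).trans ((Finset.card_union_le _ _).trans
      (Nat.add_le_add_right (Finset.card_union_le _ _) _))
  have hc2 : (MS G k).card ≤ 2 * S1.card + 2 := by omega
  calc (MS G k).card * k ≤ (2 * S1.card + 2) * k := Nat.mul_le_mul_right k hc2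
    _ = 2 * k + 2 * (S1.card * k) := by ring
    _ ≤ _ := by omega

lemma card_F2' {A : Finset (SimpleGraph V)} (hA : BA A) {k1 k2 : ℕ} (hk : k2 ≤ k1) (hk2 : 1 ≤ k2) :
    (F2 A k1 k2).card * k2 ≤ A.card * (3 * Fintype.card V) := by
  set n := Fintype.card V with hn
  have h1 : (F2 A k1 k2).card ≤ ∑ H ∈ A, ∑ u ∈ Finset.univ.filter (fun x => N3 H k2 x), (nb H k1 u).card := by
    have := card_transfer (A := A) (B := A) (F2 A k1 k2)
      (fun H => Finset.univ.filter fun p : V × V => N3 H k2 p.1 ∧ isBr H p.1 p.2 ∧ k1 ≤ cs (delE H p.1 p.2) p.2)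
      ?_ ?_ ?_
    · refine this.trans (Finset.sum_le_sum fun H _ => ?_)
      rw [← Finset.card_sigma]
      apply Finset.card_le_card_of_injOn (fun p => (⟨p.1, p.2⟩ : Sigma fun _ : V => V))
      · rintro ⟨x, y⟩ hp
        simp only [Finset.coe_filter, Finset.mem_univ, true_and, Set.mem_ofPred_eq] at hp
        simp only [Finset.coe_sigma, Set.mem_sigma_iff, Finset.mem_coe, Finset.mem_filter, Finset.mem_univ, true_and,
          mem_nb]
        exact hp
      · rintro ⟨x, y⟩ _ ⟨x', y'⟩ _ heq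
        simp only [Sigma.mk.injEq, heq_eq_eq] at heq
        rw [heq.1, heq.2]
    · intro t ht
      simp only [F2, Finset.mem_filter, mem_E1] at ht
      rw [mem_E0]
      exact ⟨ht.1.1, ht.1.2.1⟩
    · intro t ht
      simp only [F2, Finset.mem_filter] at ht
      exact ad_mem hA ht.1
    · rintro ⟨G, u, v⟩ ht
      simp only [F2, Finset.mem_filter, mem_E1] at ht
      obtain ⟨⟨-, h2, h3, h4⟩, h5⟩ := ht
      simp only [Finset.mem_filter, Finset.mem_univ, true_and, ad]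
      refine ⟨n3_of h2 hk h4 h5, isBr_addE h2, ?_⟩
      rw [delE_addE h2]; exact h4
  have h2 : ∀ H : SimpleGraph V, (∑ u ∈ Finset.univ.filter (fun x => N3 H k2 x), (nb H k1 u).card) * k2 ≤ 3 * n := by
    intro H
    have hk1 : 1 ≤ k1 := hk2.trans hk
    have e1 := sum_nb H k1 hk1 (Finset.univ.filter (fun x => N3 H k2 x))
    have e2 := card_N3 H k2 hk2
    rw [← hn] at e1 e2
    set X := ∑ u ∈ Finset.univ.filter (fun x => N3 H k2 x), (nb H k1 u).card
    set M := (Finset.univ.filter (fun x => N3 H k2 x)).card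
    have e3 : (X * k2) * k1 ≤ (3 * n) * k1 := by
      calc (X * k2) * k1 = (X * k1) * k2 := by ring
        _ ≤ (2 * M * k1 + n) * k2 := Nat.mul_le_mul_right _ e1
        _ = 2 * (M * k2) * k1 + n * k2 := by ring
        _ ≤ 2 * n * k1 + n * k1 := by
          apply Nat.add_le_add
          · exact Nat.mul_le_mul_right _ (Nat.mul_le_mul_left 2 e2)
          · exact Nat.mul_le_mul_left _ hk
        _ = (3 * n) * k1 := by ring
    exact Nat.le_of_mul_le_mul_right e3 hk1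
  calc (F2 A k1 k2).card * k2 ≤ (∑ H ∈ A, ∑ u ∈ Finset.univ.filter (fun x => N3 H k2 x), (nb H k1 u).card) * k2 :=
        Nat.mul_le_mul_right _ h1
    _ = ∑ H ∈ A, ((∑ u ∈ Finset.univ.filter (fun x => N3 H k2 x), (nb H k1 u).card) * k2) := by
        rw [Finset.sum_mul]
    _ ≤ ∑ H ∈ A, 3 * n := Finset.sum_le_sum fun H _ => h2 H
    _ = _ := by rw [Finset.sum_const, smul_eq_mul]

lemma good_bound' {A : Finset (SimpleGraph V)} {k1 k2 : ℕ} (hk1 : 1 ≤ k1) (hk : k2 ≤ k1)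
    {t : SimpleGraph V × V × V} (ht : t ∈ E1 A k1) (hnt : t ∉ E3 A k1) :
    (fib A k1 (ad t)).card * k1 ≤ (2 * k1 + 2 * Fintype.card V + 4 * (4 * k2 + 2) * k1) +
      4 * k1 * (c2 t.1 k2 t.2.1 + c2 t.1 k2 t.2.2) := by
  obtain ⟨G, u, v⟩ := t
  have ht' := ht
  rw [mem_E1] at ht'
  obtain ⟨-, hne, hu, hv⟩ := ht'
  simp only at hne hu hv
  have hno : ∀ w, k1 ≤ cs G w → G.Reachable w u ∨ G.Reachable w v := by
    intro w hw
    by_contra hcon
    push Not at hcon
    exact hnt (Finset.mem_filter.2 ⟨ht, w, hw, hcon.1, hcon.2⟩)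
  have h1 : ∀ x y, Big (addE G u v) k1 x y → (addE G u v).Reachable u x := by
    intro x y hb
    have huv : (addE G u v).Reachable u v := (isBr_addE hne).1.reachable
    by_contra hcon
    have h2 : cs (addE G u v) x ≤ cs G x := by
      apply Finset.card_le_card
      intro w hw
      simp only [Finset.mem_filter, Finset.mem_univ, true_and] at hw ⊢
      rcases reach_addE hw with h1 | ⟨h1, -⟩ | ⟨h1, -⟩
      · exact h1
      · exact absurd (h1.mono (le_addE G u v)).symm hcon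
      · exact absurd (huv.trans (h1.mono (le_addE G u v)).symm) hcon
    have h3 : k1 ≤ cs G x := (hb.2.1.trans (cs_mono (delE_le _ _ _) _)).trans h2
    rcases hno x h3 with h4 | h4
    · exact hcon (h4.mono (le_addE G u v)).symm
    · exact hcon (huv.trans (h4.mono (le_addE G u v)).symm)
  have h2 := card_MS' hk1 u h1
  have h3 := card_N2_addE hne hk hno
  have h4 := fib_le A k1 (addE G u v)
  simp only [ad]
  calc (fib A k1 (addE G u v)).card * k1 ≤ (MS (addE G u v) k1).card * k1 := Nat.mul_le_mul_right _ h4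
    _ ≤ 2 * k1 + 2 * (2 * (Finset.univ.filter fun x => N2 (addE G u v) k1 x).card * k1 + Fintype.card V) := h2
    _ ≤ 2 * k1 + 2 * (2 * (c2 G k2 u + c2 G k2 v + (4 * k2 + 2)) * k1 + Fintype.card V) := by
      apply Nat.add_le_add_left
      apply Nat.mul_le_mul_left
      apply Nat.add_le_add_right
      apply Nat.mul_le_mul_right
      apply Nat.mul_le_mul_left
      exact h3
    _ = _ := by ring

lemma card_E3' {A : Finset (SimpleGraph V)} (hA : BA A) (k : ℕ) :
    (E3 A k).card ≤ (Y A k).card * (2 * Fintype.card V) := by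
  apply card_transfer_br (A := A)
  · intro t ht
    simp only [E3, Finset.mem_filter, mem_E1] at ht
    rw [mem_E0]
    exact ⟨ht.1.1, ht.1.2.1⟩
  · rintro ⟨G, u, v⟩ ht
    simp only [E3, Finset.mem_filter, mem_E1] at ht
    obtain ⟨⟨h1, h2, h3, h4⟩, w, hw, hwu, hwv⟩ := ht
    simp only [ad, Y, Finset.mem_filter]
    refine ⟨hA _ h1 _ _ h2, u, w, ?_, h3.trans (cs_mono (le_addE _ _ _) _),
      hw.trans (cs_mono (le_addE _ _ _) _)⟩
    intro h
    rcases reach_addE h with h5 | ⟨-, h5⟩ | ⟨h5, -⟩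
    · exact hwu h5.symm
    · exact hwv h5.symm
    · exact h2 h5

lemma main_sum' {A : Finset (SimpleGraph V)} {k1 k2 : ℕ} (hk1 : 1 ≤ k1) (hk : k2 ≤ k1) :
    (∑ t ∈ E1 A k1, (fib A k1 (ad t)).card) * k1 ≤
      (E1 A k1).card * (2 * k1 + 2 * Fintype.card V + 4 * (4 * k2 + 2) * k1) +
      8 * k1 * ((F2 A k1 k2).card * Fintype.card V) +
      (E3 A k1).card * (2 * Fintype.card V * k1) := by
  set n := Fintype.card V with hn
  have h1 : ∀ t ∈ E1 A k1, (fib A k1 (ad t)).card * k1 ≤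
      ((2 * k1 + 2 * n + 4 * (4 * k2 + 2) * k1) + 4 * k1 * (c2 t.1 k2 t.2.1 + c2 t.1 k2 t.2.2)) +
      (if t ∈ E3 A k1 then 2 * n * k1 else 0) := by
    intro t ht
    by_cases h : t ∈ E3 A k1
    · rw [if_pos h]
      exact (bad_bound t).trans (Nat.le_add_left _ _)
    · rw [if_neg h]
      exact good_bound' hk1 hk ht h
  have h2 : ∑ t ∈ E1 A k1, (if t ∈ E3 A k1 then 2 * n * k1 else 0) = (E3 A k1).card * (2 * n * k1) := by
    rw [← Finset.sum_filter, Finset.sum_const, smul_eq_mul]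
    congr 2
    ext t
    simp only [E3, Finset.mem_filter]
    tauto
  have h3 : ∑ t ∈ E1 A k1, 4 * k1 * (c2 t.1 k2 t.2.1 + c2 t.1 k2 t.2.2) ≤
      8 * k1 * ((F2 A k1 k2).card * n) := by
    rw [← Finset.mul_sum, Finset.sum_add_distrib, sum_c2_symm]
    have := sum_c2_le A k1 k2
    calc _ ≤ 4 * k1 * ((F2 A k1 k2).card * n + (F2 A k1 k2).card * n) := by
          apply Nat.mul_le_mul_left
          exact Nat.add_le_add this this
      _ = _ := by ring
  calc (∑ t ∈ E1 A k1, (fib A k1 (ad t)).card) * k1 = ∑ t ∈ E1 A k1, (fib A k1 (ad t)).card * k1 := by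
        rw [Finset.sum_mul]
    _ ≤ ∑ t ∈ E1 A k1, (((2 * k1 + 2 * n + 4 * (4 * k2 + 2) * k1) + 4 * k1 * (c2 t.1 k2 t.2.1 + c2 t.1 k2 t.2.2)) +
      (if t ∈ E3 A k1 then 2 * n * k1 else 0)) := Finset.sum_le_sum h1
    _ = (E1 A k1).card * (2 * k1 + 2 * n + 4 * (4 * k2 + 2) * k1) +
        ∑ t ∈ E1 A k1, 4 * k1 * (c2 t.1 k2 t.2.1 + c2 t.1 k2 t.2.2) + (E3 A k1).card * (2 * n * k1) := by
        rw [Finset.sum_add_distrib, Finset.sum_add_distrib, h2, Finset.sum_const, smul_eq_mul]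
    _ ≤ _ := by
        apply Nat.add_le_add_right
        exact Nat.add_le_add_left h3 _

lemma W_bound' [Nonempty V] {A : Finset (SimpleGraph V)} (hA : BA A) (hne : A.Nonempty) {k1 k2 : ℕ}
    (hk : k2 ≤ k1) (hk2 : 1 ≤ k2) {n K1 K2 : ℝ} (hn : n = Fintype.card V) (hK1 : K1 = k1) (hK2 : K2 = k2) :
    ((E1 A k1).card : ℝ) / A.card ≤
      (10 + 2 * n / K1 + 16 * K2 + 4 * n ^ 2 / K1 ^ 2) + √(24 * n ^ 2 / K2) := by
  have hn0 : 0 < n := by
    rw [hn]
    exact_mod_cast Fintype.card_pos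
  have hK20 : 0 < K2 := by
    rw [hK2]
    exact_mod_cast hk2
  have hk1 : 1 ≤ k1 := hk2.trans hk
  have hK10 : 0 < K1 := by
    rw [hK1]
    exact_mod_cast hk1
  have ha : (0 : ℝ) < A.card := by
    exact_mod_cast Finset.card_pos.2 hne
  set a : ℝ := (A.card : ℝ) with hadef
  set W : ℝ := ((E1 A k1).card : ℝ) with hW
  set S : ℝ := ((∑ t ∈ E1 A k1, (fib A k1 (ad t)).card : ℕ) : ℝ) with hS
  set F : ℝ := ((F2 A k1 k2).card : ℝ) with hF
  set E : ℝ := ((E3 A k1).card : ℝ) with hE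
  set y : ℝ := ((Y A k1).card : ℝ) with hy
  have i1 : W ^ 2 ≤ a * S := by
    have := cs_ineq hA k1
    rw [hW, hadef, hS]
    exact_mod_cast this
  have i2 : S * K1 ≤ W * (2 * K1 + 2 * n + 4 * (4 * K2 + 2) * K1) + 8 * K1 * (F * n) + E * (2 * n * K1) := by
    have := main_sum' (A := A) hk1 hk
    rw [hS, hW, hF, hE, hn, hK1, hK2]
    exact_mod_cast this
  have i3 : F * K2 ≤ a * (3 * n) := by
    have := card_F2' hA hk hk2
    rw [hF, hadef, hn, hK2]
    exact_mod_cast this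
  have i4 : E ≤ y * (2 * n) := by
    have := card_E3' hA k1
    rw [hE, hy, hn]
    exact_mod_cast this
  have i6 : y * (K1 * K1) ≤ W := by
    have := card_Y A k1
    rw [hy, hW, hK1]
    exact_mod_cast this
  have hW0 : 0 ≤ W := by positivity
  have j3 : F ≤ a * (3 * n) / K2 := by
    rw [le_div_iff₀ hK20]; exact i3
  have j6 : y ≤ W / (K1 * K1) := by
    rw [le_div_iff₀ (mul_pos hK10 hK10)]; exact i6
  have j4 : E ≤ W / (K1 * K1) * (2 * n) := i4.trans (mul_le_mul_of_nonneg_right j6 (by positivity))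
  have j2 : S ≤ (10 + 2 * n / K1 + 16 * K2 + 4 * n ^ 2 / K1 ^ 2) * W + a * (24 * n ^ 2 / K2) := by
    have k1' : 8 * K1 * (F * n) ≤ 8 * K1 * (a * (3 * n) / K2 * n) := by
      apply mul_le_mul_of_nonneg_left _ (by positivity)
      exact mul_le_mul_of_nonneg_right j3 hn0.le
    have k2' : E * (2 * n * K1) ≤ W / (K1 * K1) * (2 * n) * (2 * n * K1) :=
      mul_le_mul_of_nonneg_right j4 (by positivity)
    have k3 : S * K1 ≤ ((10 + 2 * n / K1 + 16 * K2 + 4 * n ^ 2 / K1 ^ 2) * W + a * (24 * n ^ 2 / K2)) * K1 := by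
      have : ((10 + 2 * n / K1 + 16 * K2 + 4 * n ^ 2 / K1 ^ 2) * W + a * (24 * n ^ 2 / K2)) * K1 =
        W * (2 * K1 + 2 * n + 4 * (4 * K2 + 2) * K1) + 8 * K1 * (a * (3 * n) / K2 * n) +
        W / (K1 * K1) * (2 * n) * (2 * n * K1) := by
        field_simp
        ring
      rw [this]
      linarith
    exact le_of_mul_le_mul_right k3 hK10
  apply quad (by positivity) (by positivity)
  have m1 : W ^ 2 ≤ a * ((10 + 2 * n / K1 + 16 * K2 + 4 * n ^ 2 / K1 ^ 2) * W + a * (24 * n ^ 2 / K2)) :=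
    i1.trans (mul_le_mul_of_nonneg_left j2 ha.le)
  rw [div_pow, div_le_iff₀ (by positivity)]
  calc W ^ 2 ≤ _ := m1
    _ = _ := by
      field_simp

/-- the bound for all thresholds `k1 ≥ n^(2/3)` -/
lemma W_le [Nonempty V] {A : Finset (SimpleGraph V)} (hA : BA A) (hne : A.Nonempty) {k1 k2 : ℕ}
    (hk : k2 ≤ k1) {m : ℝ} (hm : 1 ≤ m) (hn : m ^ 3 = Fintype.card V) (h2 : m ^ 2 ≤ k2)
    (h2' : (k2 : ℝ) ≤ 2 * m ^ 2) :
    ((E1 A k1).card : ℝ) ≤ 53 * m ^ 2 * A.card := by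
  have hm0 : 0 < m := by linarith
  have hm2 : 1 ≤ m ^ 2 := one_le_pow₀ hm
  have hk2r : (1 : ℝ) ≤ k2 := hm2.trans h2
  have hk2 : 1 ≤ k2 := by exact_mod_cast hk2r
  have hk1 : m ^ 2 ≤ (k1 : ℝ) := h2.trans (by exact_mod_cast hk)
  have ha : (0 : ℝ) < A.card := by
    exact_mod_cast Finset.card_pos.2 hne
  have h := W_bound' hA hne hk hk2 (n := m ^ 3) (K1 := k1) (K2 := k2) hn rfl rfl
  rw [div_le_iff₀ ha] at h
  refine h.trans (mul_le_mul_of_nonneg_right ?_ ha.le)
  have hk10 : (0 : ℝ) < k1 := lt_of_lt_of_le (by positivity) hk1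
  have hk20 : (0 : ℝ) < k2 := by linarith
  have hmm : m ≤ m ^ 2 := by nlinarith
  have e1 : 2 * m ^ 3 / (k1 : ℝ) ≤ 2 * m := by
    rw [div_le_iff₀ hk10]
    nlinarith
  have e2 : 4 * (m ^ 3) ^ 2 / (k1 : ℝ) ^ 2 ≤ 4 * m ^ 2 := by
    rw [div_le_iff₀ (by positivity)]
    have e3 : (m ^ 2) ^ 2 ≤ (k1 : ℝ) ^ 2 := pow_le_pow_left₀ (by positivity) hk1 2
    calc 4 * (m ^ 3) ^ 2 = 4 * m ^ 2 * (m ^ 2) ^ 2 := by ring
      _ ≤ 4 * m ^ 2 * (k1 : ℝ) ^ 2 := mul_le_mul_of_nonneg_left e3 (by positivity)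
  have e4 : √(24 * (m ^ 3) ^ 2 / (k2 : ℝ)) ≤ 5 * m ^ 2 := by
    rw [Real.sqrt_le_left (by positivity), div_le_iff₀ hk20]
    calc 24 * (m ^ 3) ^ 2 ≤ 25 * m ^ 4 * m ^ 2 := by
          have : (0 : ℝ) ≤ m ^ 6 := by positivity
          nlinarith
      _ ≤ 25 * m ^ 4 * (k2 : ℝ) := mul_le_mul_of_nonneg_left h2 (by positivity)
      _ = (5 * m ^ 2) ^ 2 * k2 := by ring
  linarith

/-- tail bound -/
lemma tail [Nonempty V] {A : Finset (SimpleGraph V)} (hA : BA A) (hne : A.Nonempty) {k k2 : ℕ}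
    (hk : k2 ≤ k) {m : ℝ} (hm : 1 ≤ m) (hn : m ^ 3 = Fintype.card V) (h2 : m ^ 2 ≤ k2)
    (h2' : (k2 : ℝ) ≤ 2 * m ^ 2) :
    ((A.filter fun G => 4 * k ≤ fr G).card : ℝ) * (k : ℝ) ^ 2 ≤ 54 * m ^ 2 * A.card := by
  have hsub : (A.filter fun G => 4 * k ≤ fr G) ⊆ Z A (4 * k) k ∪ Y A k := by
    intro G hG
    rw [Finset.mem_filter] at hG
    by_cases hY : G ∈ Y A k
    · exact Finset.mem_union_right _ hY
    · apply Finset.mem_union_left
      simp only [Z, Finset.mem_filter]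
      refine ⟨hG.1, hG.2, ?_⟩
      intro u v h3 h4
      exact hY (Finset.mem_filter.2 ⟨hG.1, u, v, h3, h4⟩)
  have h1 : ((A.filter fun G => 4 * k ≤ fr G).card : ℝ) ≤ (Z A (4 * k) k).card + (Y A k).card := by
    exact_mod_cast (Finset.card_le_card hsub).trans (Finset.card_union_le _ _)
  have i4 : ((Z A (4 * k) k).card : ℝ) * ((4 * k) * (4 * k)) ≤ 8 * A.card := by
    have := card_Z hA (f := 4 * k) (k := k) le_rfl
    exact_mod_cast this
  have i5 : ((Y A k).card : ℝ) * (k * k) ≤ (E1 A k).card := by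
    have := card_Y A k
    exact_mod_cast this
  have i6 := W_le hA hne hk hm hn h2 h2'
  have ha : (0 : ℝ) ≤ A.card := Nat.cast_nonneg _
  have hm2 : 1 ≤ m ^ 2 := one_le_pow₀ hm
  have hkk : (0 : ℝ) ≤ (k : ℝ) ^ 2 := by positivity
  nlinarith [mul_le_mul_of_nonneg_right h1 hkk, mul_le_mul_of_nonneg_right hm2 ha]

end

end Pool.Agent.H25.CP
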