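import Pool.Graph.R_pool_sql_team_seeded_843ab51a.V1120.TC.Core

/-!
# Numerical conditions of the construction, explicitly
-/

set_option autoImplicit false

namespace Pool.Agent.H25.CP

open Pool.Agent.V1120.TC

/-- `exp x - 1 ≤ 2 x` for `0 ≤ x ≤ 1/2` -/
lemma exp_sub_one_le (x : ℝ) (h0 : 0 ≤ x) (h1 : x ≤ 1 / 2) : Real.exp x - 1 ≤ 2 * x := by
  have h2 : 1 - x ≤ Real.exp (-x) := by
    have := Real.add_one_le_exp (-x)
    linarith
  have h3 : Real.exp x * Real.exp (-x) = 1 := by rw [← Real.exp_add]; simp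
  have h4 : 0 < Real.exp x := Real.exp_pos x
  have h5 : Real.exp x * (1 - x) ≤ 1 := by
    calc Real.exp x * (1 - x) ≤ Real.exp x * Real.exp (-x) := mul_le_mul_of_nonneg_left h2 h4.le
      _ = 1 := h3
  have h6 : 1 ≤ (1 + 2 * x) * (1 - x) := by nlinarith
  have h7 : Real.exp x * (1 - x) ≤ (1 + 2 * x) * (1 - x) := h5.trans h6
  have h8 : Real.exp x ≤ 1 + 2 * x := le_of_mul_le_mul_right h7 (by linarith)
  linarith

/-- for `E ≥ 48` -/
lemma exp_big (E : ℝ) (hE : 48 ≤ E) : 313 ≤ Real.exp (E / 2) := by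
  have h := Real.quadratic_le_exp_of_nonneg (show (0 : ℝ) ≤ E / 2 by linarith)
  nlinarith

lemma sq_le_exp (E : ℝ) (hE : 0 ≤ E) : E ^ 2 ≤ 2 * Real.exp E := by
  have h := Real.quadratic_le_exp_of_nonneg hE
  nlinarith

/-- the error term `rho` for `g ≥ exp (5 K d)` -/
lemma rho_le (K d g : ℕ) (hK : 1 ≤ K) (hd : 48 ≤ d) (hg : Real.exp (5 * ((K : ℝ) * d)) ≤ g) :
    rho K d g * Real.exp (2 * (K * d : ℝ)) ≤ 289 * Real.exp (-((K : ℝ) * d)) := by
  set E : ℝ := (K : ℝ) * d with hE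
  have hK1 : (1 : ℝ) ≤ K := by exact_mod_cast hK
  have hd1 : (48 : ℝ) ≤ d := by exact_mod_cast hd
  have hE48 : 48 ≤ E := by nlinarith
  have hg0 : 0 < (g : ℝ) := lt_of_lt_of_le (Real.exp_pos _) hg
  have hginv : 1 / (g : ℝ) ≤ Real.exp (-(5 * E)) := by
    rw [Real.exp_neg, one_div]
    exact inv_anti₀ (Real.exp_pos _) hg
  have hx : 4 * ((K : ℝ) * (d : ℝ) ^ 2) / g ≤ 4 * E ^ 2 * Real.exp (-(5 * E)) := by
    have h1 : (K : ℝ) * (d : ℝ) ^ 2 ≤ E ^ 2 := by
      rw [hE]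
      have : (K : ℝ) * (d : ℝ) ^ 2 * 1 ≤ (K : ℝ) * (d : ℝ) ^ 2 * K :=
        mul_le_mul_of_nonneg_left hK1 (by positivity)
      nlinarith
    calc 4 * ((K : ℝ) * (d : ℝ) ^ 2) / g = 4 * ((K : ℝ) * (d : ℝ) ^ 2) * (1 / g) := by ring
      _ ≤ 4 * E ^ 2 * Real.exp (-(5 * E)) := by
        apply mul_le_mul (by linarith) hginv (by positivity) (by positivity)
  have hE0 : 0 ≤ E := by linarith
  have hsq := sq_le_exp E hE0
  have hx2 : 4 * ((K : ℝ) * (d : ℝ) ^ 2) / g ≤ 8 * Real.exp (-(4 * E)) := by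
    refine hx.trans ?_
    have h1 : Real.exp E * Real.exp (-(5 * E)) = Real.exp (-(4 * E)) := by
      rw [← Real.exp_add]; congr 1; ring
    have h2 : 4 * E ^ 2 * Real.exp (-(5 * E)) ≤ 4 * (2 * Real.exp E) * Real.exp (-(5 * E)) := by
      apply mul_le_mul_of_nonneg_right _ (Real.exp_pos _).le
      linarith
    linarith [h1, h2]
  have hsmall : Real.exp (-(4 * E)) ≤ 1 / 16 := by
    have h1 : (16 : ℝ) ≤ Real.exp (4 * E) := by
      have := Real.add_one_le_exp (4 * E)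
      linarith
    rw [Real.exp_neg]
    calc (Real.exp (4 * E))⁻¹ ≤ (16 : ℝ)⁻¹ := inv_anti₀ (by norm_num) h1
      _ = 1 / 16 := by norm_num
  have hR : Rr K d g - 1 ≤ 16 * Real.exp (-(4 * E)) := by
    unfold Rr
    have h0 : 0 ≤ 4 * ((K : ℝ) * (d : ℝ) ^ 2) / g := by positivity
    have h1 := exp_sub_one_le _ h0 (by linarith)
    linarith
  have hR0 : 0 ≤ Rr K d g - 1 := by linarith [one_le_Rr K d g]
  have hg2 : Real.exp (2 * E) / g ≤ Real.exp (-(3 * E)) := by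
    calc Real.exp (2 * E) / g = Real.exp (2 * E) * (1 / g) := by ring
      _ ≤ Real.exp (2 * E) * Real.exp (-(5 * E)) := mul_le_mul_of_nonneg_left hginv (Real.exp_pos _).le
      _ = Real.exp (-(3 * E)) := by rw [← Real.exp_add]; congr 1; ring
  have h2K : Real.exp (2 * (K : ℝ)) ≤ Real.exp E := by
    apply Real.exp_le_exp.mpr
    rw [hE]
    nlinarith
  have h4 : (Rr K d g - 1) * Real.exp (2 * (K : ℝ)) ≤ 16 * Real.exp (-(3 * E)) := by
    calc (Rr K d g - 1) * Real.exp (2 * (K : ℝ)) ≤ 16 * Real.exp (-(4 * E)) * Real.exp E :=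
          mul_le_mul hR h2K (Real.exp_pos _).le (by positivity)
      _ = 16 * (Real.exp (-(4 * E)) * Real.exp E) := by ring
      _ = 16 * Real.exp (-(3 * E)) := by rw [← Real.exp_add]; congr 2; ring
  have h5 : Real.exp (-(4 * E)) ≤ 1 / 16 * Real.exp (-(3 * E)) := by
    have h6 : Real.exp (-(4 * E)) = Real.exp (-E) * Real.exp (-(3 * E)) := by
      rw [← Real.exp_add]; congr 1; ring
    rw [h6]
    apply mul_le_mul_of_nonneg_right _ (Real.exp_pos _).le
    have h1 : (16 : ℝ) ≤ Real.exp E := by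
      have := Real.add_one_le_exp E
      linarith
    rw [Real.exp_neg]
    calc (Real.exp E)⁻¹ ≤ (16 : ℝ)⁻¹ := inv_anti₀ (by norm_num) h1
      _ = 1 / 16 := by norm_num
  have hrho : rho K d g ≤ 289 * Real.exp (-(3 * E)) := by
    unfold rho
    have h7 : Real.exp (2 * ((K : ℝ) * d)) / g ≤ Real.exp (-(3 * E)) := hg2
    have h8 : 0 < Real.exp (-(3 * E)) := Real.exp_pos _
    linarith
  calc rho K d g * Real.exp (2 * (K * d : ℝ)) ≤ 289 * Real.exp (-(3 * E)) * Real.exp (2 * E) :=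
        mul_le_mul_of_nonneg_right hrho (Real.exp_pos _).le
    _ = 289 * (Real.exp (-(3 * E)) * Real.exp (2 * E)) := by ring
    _ = 289 * Real.exp (-E) := by rw [← Real.exp_add]; congr 2; ring

end Pool.Agent.H25.CP
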