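import Pool.Agent.H25.CP.Cyc
import Pool.Agent.H25.CP.Num

/-!
# The uniform lower bound for `cp_r(δ)`
-/

set_option autoImplicit false

open Filter Topology
open scoped ENNReal

namespace Pool.Agent.H25.CP

open Pool.Agent.V1120.TC

lemma one_le_L (δ : ℝ) (h0 : 0 < δ) (h1 : δ < 1 / 2) :
    3 ≤ Real.log (16 / δ) ∧ 1 ≤ Real.log (Real.log (16 / δ)) := by
  have h2 : (32 : ℝ) ≤ 16 / δ := by
    rw [le_div_iff₀ h0]
    linarith
  have h3 : 3 ≤ Real.log (16 / δ) := by
    rw [Real.le_log_iff_exp_le (by positivity)]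
    refine le_trans ?_ h2
    have h4 : Real.exp 3 = Real.exp 1 ^ 3 := by rw [← Real.exp_nat_mul]; norm_num
    rw [h4]
    have h5 := Real.exp_one_lt_d9
    have h6 := Real.exp_pos 1
    calc Real.exp 1 ^ 3 ≤ 2.72 ^ 3 := pow_le_pow_left₀ h6.le (by linarith) 3
      _ ≤ 32 := by norm_num
  refine ⟨h3, ?_⟩
  rw [Real.le_log_iff_exp_le (by linarith)]
  have h5 := Real.exp_one_lt_d9
  linarith

/-- **The uniform lower bound.** -/
theorem cpr_lower (r : ℕ) (δ : ℝ) (h0 : 0 < δ) (h1 : δ < 1 / 2)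
    (hr : 1500 * (Real.log (Real.log (16 / δ)) / δ) ≤ Real.log r) :
    ENNReal.ofReal ((r : ℝ) ^ 2 / (3200 * Real.log (Real.log (16 / δ)) ^ 2)) ≤
      ((cpr r δ : ℕ∞) : ℝ≥0∞) := by
  obtain ⟨hy3, hL1⟩ := one_le_L δ h0 h1
  set y : ℝ := Real.log (16 / δ) with hy
  set L : ℝ := Real.log y with hL
  have hy0 : 0 < y := by linarith
  -- the number of copies
  set K : ℕ := ⌈2 * Real.log (16 * y)⌉₊ with hK
  have hKge : 2 * Real.log (16 * y) ≤ K := Nat.le_ceil _
  have hlog16 : Real.log 16 = 4 * Real.log 2 := by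
    rw [show (16 : ℝ) = 2 ^ 4 by norm_num, Real.log_pow]; norm_num
  have hlog16' : Real.log 16 ≤ 2.7728 := by
    rw [hlog16]
    have := Real.log_two_lt_d9
    linarith
  have hlog160 : 0 < Real.log 16 := Real.log_pos (by norm_num)
  have hlog16y : Real.log (16 * y) = Real.log 16 + L := by
    rw [Real.log_mul (by norm_num) hy0.ne']
  have hKlt : (K : ℝ) < 2 * Real.log (16 * y) + 1 :=
    Nat.ceil_lt_add_one (by rw [hlog16y]; linarith)
  have hK9 : (K : ℝ) ≤ 9 * L := by rw [hlog16y] at hKlt; linarith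
  have hK10 : (K : ℝ) + 1 ≤ 10 * L := by rw [hlog16y] at hKlt; linarith
  have hK1r : (1 : ℝ) ≤ K := by rw [hlog16y] at hKge; linarith
  have hK1 : 1 ≤ K := by exact_mod_cast hK1r
  -- the number of slopes
  set d : ℕ := ⌈24 / δ⌉₊ with hd
  have hdge : 24 / δ ≤ d := Nat.le_ceil _
  have hdlt : (d : ℝ) < 24 / δ + 1 := Nat.ceil_lt_add_one (by positivity)
  have hd245 : (d : ℝ) ≤ 24.5 / δ := by
    have h2 : (1 : ℝ) ≤ 0.5 / δ := by
      rw [le_div_iff₀ h0]
      linarith
    have h3 : (24.5 : ℝ) / δ = 24 / δ + 0.5 / δ := by rw [← add_div]; norm_num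
    linarith
  have h24 : (48 : ℝ) ≤ 24 / δ := by
    rw [le_div_iff₀ h0]
    linarith
  have hd48r : (48 : ℝ) ≤ d := h24.trans hdge
  have hd48 : 48 ≤ d := by exact_mod_cast hd48r
  set E : ℝ := (K : ℝ) * d with hE
  have hEd : (d : ℝ) ≤ E := by rw [hE]; nlinarith
  have hE48 : 48 ≤ E := hd48r.trans hEd
  have hE0 : 0 < E := by linarith
  have hE6 : 6 * E ≤ Real.log r := by
    refine le_trans ?_ hr
    have h2 : E ≤ 9 * L * (24.5 / δ) := mul_le_mul hK9 hd245 (by linarith) (by linarith)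
    have h3 : 9 * L * (24.5 / δ) = 220.5 * (L / δ) := by ring
    have h4 : 0 < L / δ := by positivity
    linarith
  have hrpos : (0 : ℝ) < r := by
    rcases Nat.eq_zero_or_pos r with h | h
    · rw [h] at hE6
      simp at hE6
      linarith
    · exact_mod_cast h
  have hrexp : Real.exp (6 * E) ≤ r := by
    rw [← Real.le_log_iff_exp_le hrpos]
    exact hE6
  have hexpE : 2 * ((K : ℝ) + 1) ≤ Real.exp E := by
    have h2 := Real.add_one_le_exp E
    have h3 : 48 * (K : ℝ) ≤ E := by rw [hE]; nlinarith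
    linarith
  have h6E : Real.exp (6 * E) = Real.exp (5 * E) * Real.exp E := by
    rw [← Real.exp_add]; congr 1; ring
  -- the prime
  set q : ℕ := (r - 1) / (2 * (K + 1)) with hq
  have hr2K : 2 * (K + 1) + 1 ≤ r := by
    have h2 : (2 * ((K : ℝ) + 1) + 1) ≤ r := by
      refine le_trans ?_ hrexp
      rw [h6E]
      have h3 : (2 : ℝ) ≤ Real.exp (5 * E) := by
        have := Real.add_one_le_exp (5 * E)
        linarith
      have h4 : (1 : ℝ) ≤ Real.exp E := Real.one_le_exp hE0.le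
      nlinarith
    exact_mod_cast h2
  have hq1 : 1 ≤ q := by
    rw [hq, Nat.le_div_iff_mul_le (by positivity)]
    omega
  obtain ⟨g, hgp, hg1, hg2⟩ := Nat.exists_prime_lt_and_le_two_mul q (by omega)
  have hq2 : q * (2 * (K + 1)) ≤ r - 1 := Nat.div_mul_le_self _ _
  have hq3 : r - 1 < (q + 1) * (2 * (K + 1)) := by
    rw [hq, mul_comm]
    exact Nat.lt_mul_div_succ (r - 1) (by positivity)
  have hrg : (K + 1) * g + 1 ≤ r := by
    have h2 : (K + 1) * g ≤ (K + 1) * (2 * q) := Nat.mul_le_mul_left _ hg2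
    have h3 : (K + 1) * (2 * q) = q * (2 * (K + 1)) := by ring
    omega
  have hge : r ≤ 2 * (K + 1) * g := by
    have h2 : (q + 1) * (2 * (K + 1)) ≤ g * (2 * (K + 1)) := Nat.mul_le_mul_right _ (by omega)
    have h3 : g * (2 * (K + 1)) = 2 * (K + 1) * g := by ring
    omega
  have hger : (r : ℝ) ≤ 2 * ((K : ℝ) + 1) * g := by exact_mod_cast hge
  have hg0 : (0 : ℝ) ≤ g := by positivity
  have hg5 : Real.exp (5 * E) ≤ g := by
    have h2 : Real.exp (5 * E) * Real.exp E ≤ Real.exp E * g := by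
      rw [← h6E]
      exact hrexp.trans (hger.trans (mul_le_mul_of_nonneg_right hexpE hg0))
    rw [mul_comm (Real.exp E)] at h2
    exact le_of_mul_le_mul_right h2 (Real.exp_pos _)
  have hρ := rho_le K d g hK1 hd48 hg5
  have hbig := exp_big E hE48
  have hexp2 : Real.exp E = Real.exp (E / 2) * Real.exp (E / 2) := by
    rw [← Real.exp_add]; congr 1; ring
  have hEδ : 24 / δ ≤ E := hdge.trans hEd
  have hexpδ : 3468 / δ ≤ Real.exp E := by
    have h2 : E / 2 ≤ Real.exp (E / 2) := by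
      have := Real.add_one_le_exp (E / 2)
      linarith
    have h3 : 313 * (E / 2) ≤ Real.exp E := by
      rw [hexp2]
      exact mul_le_mul hbig h2 (by linarith) (Real.exp_pos _).le
    have h4 : 3468 / δ ≤ 313 * (12 / δ) := by
      rw [mul_div_assoc']
      apply div_le_div_of_nonneg_right _ h0.le
      norm_num
    have h5 : (24 : ℝ) / δ = 2 * (12 / δ) := by ring
    linarith
  have hρ8 : rho K d g * Real.exp (2 * (K * d : ℝ)) ≤ 1 / 8 := by
    refine hρ.trans ?_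
    have h2 : (2312 : ℝ) ≤ Real.exp E := by
      rw [hexp2]
      nlinarith
    rw [Real.exp_neg]
    have h3 : (Real.exp E)⁻¹ ≤ (2312 : ℝ)⁻¹ := inv_anti₀ (by norm_num) h2
    linarith [h3, show (289 : ℝ) * (2312 : ℝ)⁻¹ = 1 / 8 by norm_num]
  have hρδ : rho K d g ≤ δ / 12 := by
    have h2 : rho K d g = rho K d g * Real.exp (2 * (K * d : ℝ)) * Real.exp (-(2 * E)) := by
      rw [mul_assoc, ← Real.exp_add]
      have : 2 * ((K : ℝ) * d) + -(2 * E) = 0 := by rw [hE]; ring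
      rw [this, Real.exp_zero, mul_one]
    have h3 : Real.exp (-(2 * E)) ≤ 1 := Real.exp_le_one_iff.mpr (by linarith)
    have h4 : rho K d g ≤ 289 * Real.exp (-E) := by
      rw [h2]
      calc rho K d g * Real.exp (2 * (K * d : ℝ)) * Real.exp (-(2 * E))
          ≤ 289 * Real.exp (-E) * Real.exp (-(2 * E)) :=
            mul_le_mul_of_nonneg_right hρ (Real.exp_pos _).le
        _ ≤ 289 * Real.exp (-E) * 1 := mul_le_mul_of_nonneg_left h3 (by positivity)
        _ = 289 * Real.exp (-E) := mul_one _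
    refine h4.trans ?_
    have h5 : Real.exp (-E) ≤ δ / 3468 := by
      rw [Real.exp_neg]
      calc (Real.exp E)⁻¹ ≤ (3468 / δ)⁻¹ := inv_anti₀ (by positivity) hexpδ
        _ = δ / 3468 := by rw [inv_div]
    linarith
  have h2d : 2 / (d : ℝ) ≤ δ / 12 := by
    rw [div_le_iff₀ (by linarith)]
    rw [div_le_iff₀ h0] at hdge
    linarith
  have hη : Real.exp (-(Real.exp (K / 2 : ℝ) / 16)) ≤ δ / 12 := by
    have h2 : 16 * y ≤ Real.exp (K / 2 : ℝ) := by
      calc 16 * y = Real.exp (Real.log (16 * y)) := (Real.exp_log (by linarith)).symm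
        _ ≤ Real.exp (K / 2 : ℝ) := Real.exp_le_exp.mpr (by linarith)
    calc Real.exp (-(Real.exp (K / 2 : ℝ) / 16)) ≤ Real.exp (-y) := by
          apply Real.exp_le_exp.mpr
          linarith
      _ = δ / 16 := by
          rw [hy, Real.exp_neg, Real.exp_log (by positivity), inv_div]
      _ ≤ δ / 12 := by
          apply div_le_div_of_nonneg_left h0.le (by norm_num) (by norm_num)
  have h2dg : 2 * d ≤ g := by
    have h2 : 2 * (d : ℝ) ≤ g := by
      refine le_trans ?_ hg5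
      have := Real.add_one_le_exp (5 * E)
      linarith
    exact_mod_cast h2
  have hmain := cpr_ge K d hK1 (by omega) g hgp h2dg hρ8 δ h0 (by linarith) (by linarith) r hrg
  -- numerical comparison
  have hB : (g : ℝ) ^ 2 / 8 ≤ ((g ^ 2 / 8 + 1 : ℕ) : ℝ) := by
    have h2 : g ^ 2 ≤ 8 * (g ^ 2 / 8 + 1) := by omega
    have h3 : ((g ^ 2 : ℕ) : ℝ) ≤ ((8 * (g ^ 2 / 8 + 1) : ℕ) : ℝ) := by exact_mod_cast h2
    rw [Nat.cast_mul, Nat.cast_pow] at h3
    push_cast at h3 ⊢
    linarith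
  have hcmp : (r : ℝ) ^ 2 / (3200 * L ^ 2) ≤ ((g ^ 2 / 8 + 1 : ℕ) : ℝ) := by
    refine le_trans ?_ hB
    have h2 : (r : ℝ) ≤ 20 * L * g := by
      refine hger.trans ?_
      apply mul_le_mul_of_nonneg_right _ hg0
      linarith
    rw [div_le_iff₀ (by positivity)]
    have h3 : (r : ℝ) ^ 2 ≤ (20 * L * g) ^ 2 := pow_le_pow_left₀ (by positivity) h2 2
    nlinarith
  calc ENNReal.ofReal ((r : ℝ) ^ 2 / (3200 * L ^ 2))
      ≤ ENNReal.ofReal ((g ^ 2 / 8 + 1 : ℕ) : ℝ) := ENNReal.ofReal_le_ofReal hcmp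
    _ = (((g ^ 2 / 8 + 1 : ℕ) : ℕ∞) : ℝ≥0∞) := by
        rw [ENNReal.ofReal_natCast]; rfl
    _ ≤ ((cpr r δ : ℕ∞) : ℝ≥0∞) := by
        exact_mod_cast hmain

end Pool.Agent.H25.CP
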