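import Pool.Agent.H25.CP.Frag

/-!
# The second moment of the fragment size
-/

set_option autoImplicit false
set_option linter.unusedSectionVars false

open Classical Filter

namespace Pool.Agent.H25.CP

open Pool.Agent.Results.MP_572a82_pr.FragmentSize

section

variable {V : Type*} [Fintype V]

/-- a graph with two components of order at least `K` has many separated pairs -/
lemma pairs_ge [Nonempty V] {A : Finset (SimpleGraph V)} {k K : ℕ} {G : SimpleGraph V} (hG : G ∈ A) (hK : k ≤ K)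
    (h : ∃ u v, ¬ G.Reachable u v ∧ K ≤ cs G u ∧ K ≤ cs G v) :
    K ≤ Fintype.card V - fr G ∧
      2 * (K * (Fintype.card V - fr G)) ≤ ((E1 A k).filter fun t => t.1 = G).card := by
  obtain ⟨u0, -, hu0⟩ := Finset.exists_mem_eq_sup (Finset.univ : Finset V) Finset.univ_nonempty (cs G)
  obtain ⟨u, v, huv, hu, hv⟩ := h
  have hmax : ∀ x, cs G x ≤ cs G u0 := fun x => by
    rw [← hu0]; exact Finset.le_sup (Finset.mem_univ x)
  have hn : Fintype.card V - fr G = cs G u0 := by
    have := sup_cs_le G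
    unfold fr
    omega
  obtain ⟨w, hw0, hw⟩ : ∃ w, ¬ G.Reachable u0 w ∧ K ≤ cs G w := by
    by_cases h0 : G.Reachable u0 u
    · exact ⟨v, fun h1 => huv (h0.symm.trans h1), hv⟩
    · exact ⟨u, h0, hu⟩
  rw [hn]
  refine ⟨hw.trans (hmax w), ?_⟩
  set Cu := Finset.univ.filter fun x => G.Reachable u0 x with hCu
  set Cw := Finset.univ.filter fun x => G.Reachable w x with hCw
  have h3 : 2 * (K * cs G u0) ≤ ((Cu ×ˢ Cw) ∪ (Cw ×ˢ Cu)).card := by
    rw [Finset.card_union_of_disjoint, Finset.card_product, Finset.card_product]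
    · have e1 : Cu.card = cs G u0 := rfl
      have e2 : Cw.card = cs G w := rfl
      rw [e1, e2]
      have e3 : K * cs G u0 ≤ cs G w * cs G u0 := Nat.mul_le_mul_right _ hw
      have e4 : cs G u0 * cs G w = cs G w * cs G u0 := Nat.mul_comm _ _
      omega
    · rw [Finset.disjoint_left]
      rintro ⟨a, b⟩ h1 h2
      simp only [hCu, hCw, Finset.mem_product, Finset.mem_filter, Finset.mem_univ, true_and] at h1 h2
      exact hw0 (h1.1.trans h2.1.symm)
  refine h3.trans ?_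
  apply Finset.card_le_card_of_injOn (fun p => (G, p.1, p.2))
  · rintro ⟨a, b⟩ hp
    simp only [hCu, hCw, Finset.coe_union, Finset.coe_product, Set.mem_union, Set.mem_prod, Finset.mem_coe,
      Finset.mem_filter, Finset.mem_univ, true_and] at hp
    simp only [Finset.coe_filter, Set.mem_ofPred_eq, mem_E1, and_true]
    rcases hp with ⟨h1, h2⟩ | ⟨h1, h2⟩
    · refine ⟨hG, fun h4 => hw0 (h1.trans (h4.trans h2.symm)), ?_, ?_⟩
      · rw [← cs_eq h1]; exact hK.trans (hw.trans (hmax w))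
      · rw [← cs_eq h2]; exact hK.trans hw
    · refine ⟨hG, fun h4 => hw0 (h2.trans (h4.symm.trans h1.symm)), ?_, ?_⟩
      · rw [← cs_eq h1]; exact hK.trans hw
      · rw [← cs_eq h2]; exact hK.trans (hw.trans (hmax w))
  · rintro ⟨a, b⟩ _ ⟨a', b'⟩ _ heq
    simp only [Prod.mk.injEq, true_and] at heq
    rw [heq.1, heq.2]

/-- pointwise bound for the square of the fragment size -/
lemma fr_sq_le [Nonempty V] {A : Finset (SimpleGraph V)} {k2 : ℕ} (hk2 : 1 ≤ k2) {G : SimpleGraph V} (hG : G ∈ A) :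
    fr G ^ 2 ≤ 4 * k2 * fr G + 32 * ((E1 A k2).filter fun t => t.1 = G).card +
      ∑ i ∈ Finset.range (Nat.log 2 (Fintype.card V) + 1),
        if G ∈ Z A (4 * (2 ^ i * k2)) (2 ^ i * k2) then 64 * (2 ^ i * k2) ^ 2 else 0 := by
  rcases lt_or_ge (fr G) (4 * k2) with hlt | hge
  · have : fr G ^ 2 ≤ 4 * k2 * fr G := by
      rw [pow_two]
      exact Nat.mul_le_mul_right _ hlt.le
    omega
  · have hq : fr G / (4 * k2) ≠ 0 := by
      have := Nat.div_pos hge (by omega)
      omega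
    set i := Nat.log 2 (fr G / (4 * k2)) with hi
    have h1 : 2 ^ i ≤ fr G / (4 * k2) := Nat.pow_log_le_self 2 hq
    have h2 : fr G / (4 * k2) < 2 ^ (i + 1) := Nat.lt_pow_succ_log_self (by norm_num) _
    have h1' : 2 ^ i * (4 * k2) ≤ fr G := (Nat.le_div_iff_mul_le (by omega)).1 h1
    have h2' : fr G < 2 ^ (i + 1) * (4 * k2) := (Nat.div_lt_iff_lt_mul (by omega)).1 h2
    set K := 2 ^ i * k2 with hK
    have h3 : 4 * K ≤ fr G := by
      calc 4 * K = 2 ^ i * (4 * k2) := by rw [hK]; ring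
        _ ≤ _ := h1'
    have h4 : fr G ≤ 8 * K := by
      calc fr G ≤ 2 ^ (i + 1) * (4 * k2) := h2'.le
        _ = 8 * K := by rw [hK, pow_succ]; ring
    have hiI : i ∈ Finset.range (Nat.log 2 (Fintype.card V) + 1) := by
      rw [Finset.mem_range, Nat.lt_succ_iff]
      apply Nat.log_mono_right
      exact (Nat.div_le_self _ _).trans (fr_le G)
    by_cases hZ : G ∈ Z A (4 * K) K
    · have h5 : 64 * K ^ 2 ≤ ∑ i ∈ Finset.range (Nat.log 2 (Fintype.card V) + 1),
        if G ∈ Z A (4 * (2 ^ i * k2)) (2 ^ i * k2) then 64 * (2 ^ i * k2) ^ 2 else 0 := by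
        have := Finset.single_le_sum (f := fun i : ℕ =>
          if G ∈ Z A (4 * (2 ^ i * k2)) (2 ^ i * k2) then 64 * (2 ^ i * k2) ^ 2 else 0)
          (fun j _ => Nat.zero_le _) hiI
        refine le_trans (le_of_eq ?_) this
        rw [if_pos hZ]
      have h6 : fr G ^ 2 ≤ 64 * K ^ 2 := by
        calc fr G ^ 2 ≤ (8 * K) ^ 2 := Nat.pow_le_pow_left h4 2
          _ = _ := by ring
      omega
    · have hex : ∃ u v, ¬ G.Reachable u v ∧ K ≤ cs G u ∧ K ≤ cs G v := by
        by_contra hcon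
        apply hZ
        simp only [Z, Finset.mem_filter]
        refine ⟨hG, h3, fun u v huv h5 => hcon ⟨u, v, huv, h5⟩⟩
      have hkK : k2 ≤ K := by
        rw [hK]
        exact Nat.le_mul_of_pos_left _ (by positivity)
      obtain ⟨h5, h6⟩ := pairs_ge hG hkK hex
      have h7 : fr G ^ 2 ≤ 32 * (2 * (K * (Fintype.card V - fr G))) := by
        set r := Fintype.card V - fr G
        calc fr G ^ 2 = fr G * fr G := pow_two _
          _ ≤ (8 * K) * (8 * r) := Nat.mul_le_mul h4 (by omega)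
          _ = _ := by ring
      have h8 := Nat.mul_le_mul_left 32 h6
      omega

/-- the sum of the squares -/
lemma sum_sq_le [Nonempty V] {A : Finset (SimpleGraph V)} (hA : BA A) {k2 : ℕ} (hk2 : 1 ≤ k2) :
    ∑ G ∈ A, fr G ^ 2 ≤ 4 * k2 * (2 * A.card) + 32 * (E1 A k2).card +
      32 * (Nat.log 2 (Fintype.card V) + 1) * A.card := by
  have h1 : (E1 A k2).card = ∑ G ∈ A, ((E1 A k2).filter fun t => t.1 = G).card :=
    Finset.card_eq_sum_card_fiberwise (f := fun t : SimpleGraph V × V × V => t.1) (t := A) (fun t ht => by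
      have := (mem_E1.1 ht).1
      exact this)
  have h2 := Finset.sum_le_sum (s := A) fun G hG => fr_sq_le hk2 hG
  refine h2.trans ?_
  rw [Finset.sum_add_distrib, Finset.sum_add_distrib, ← Finset.mul_sum, ← Finset.mul_sum, ← h1]
  apply Nat.add_le_add
  · exact Nat.add_le_add_right (Nat.mul_le_mul_left _ (sum_fr_le hA)) _
  · rw [Finset.sum_comm]
    have h3 : ∀ i ∈ Finset.range (Nat.log 2 (Fintype.card V) + 1),
        (∑ G ∈ A, if G ∈ Z A (4 * (2 ^ i * k2)) (2 ^ i * k2) then 64 * (2 ^ i * k2) ^ 2 else 0) ≤ 32 * A.card := by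
      intro i _
      set K := 2 ^ i * k2 with hK
      rw [← Finset.sum_filter, Finset.sum_const, smul_eq_mul]
      have h4 : A.filter (fun G => G ∈ Z A (4 * K) K) ⊆ Z A (4 * K) K := fun G hG => (Finset.mem_filter.1 hG).2
      have h5 := card_Z hA (f := 4 * K) (k := K) le_rfl
      calc (A.filter fun G => G ∈ Z A (4 * K) K).card * (64 * K ^ 2)
          ≤ (Z A (4 * K) K).card * (64 * K ^ 2) := Nat.mul_le_mul_right _ (Finset.card_le_card h4)
        _ = 4 * ((Z A (4 * K) K).card * (4 * K * (4 * K))) := by ring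
        _ ≤ 4 * (8 * A.card) := Nat.mul_le_mul_left 4 h5
        _ = _ := by ring
    refine (Finset.sum_le_sum h3).trans (le_of_eq ?_)
    rw [Finset.sum_const, Finset.card_range, smul_eq_mul]
    ring

lemma sq_le_pow (i : ℕ) : 4 * (i + 1) ^ 2 ≤ 9 * 2 ^ i := by
  rcases Nat.lt_or_ge i 3 with h | h
  · interval_cases i <;> norm_num
  · induction i, h using Nat.le_induction with
    | base => norm_num
    | succ n hn ih =>
      rw [pow_succ 2 n]
      nlinarith

/-- the second moment -/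
lemma second [Nonempty V] {A : Finset (SimpleGraph V)} (hA : BA A) (hne : A.Nonempty)
    {m : ℝ} (hm : 1 ≤ m) (hn : m ^ 3 = Fintype.card V) :
    ∑ G ∈ A, (fr G : ℝ) ^ 2 ≤ 1760 * m ^ 2 * A.card := by
  have hm0 : 0 < m := by linarith
  have hm2 : 1 ≤ m ^ 2 := one_le_pow₀ hm
  set k2 : ℕ := ⌈m ^ 2⌉₊ with hk2def
  have h2 : m ^ 2 ≤ k2 := Nat.le_ceil _
  have h2' : (k2 : ℝ) ≤ 2 * m ^ 2 := (Nat.ceil_lt_add_one (by positivity)).le.trans (by linarith)
  have hk2 : 1 ≤ k2 := Nat.one_le_ceil_iff.mpr (by linarith)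
  have h3 := sum_sq_le hA hk2
  have h4 : ∑ G ∈ A, (fr G : ℝ) ^ 2 ≤ 4 * k2 * (2 * A.card) + 32 * (E1 A k2).card +
      32 * ((Nat.log 2 (Fintype.card V) : ℝ) + 1) * A.card := by
    exact_mod_cast h3
  have h5 := W_le hA hne le_rfl hm hn h2 h2'
  set I := Nat.log 2 (Fintype.card V) with hI
  have h6 : ((I : ℝ) + 1) ≤ 3 / 2 * m ^ 2 := by
    have e1 : 2 ^ I ≤ Fintype.card V := Nat.pow_log_le_self 2 Fintype.card_ne_zero
    have e2 : 4 * ((I : ℝ) + 1) ^ 2 ≤ 9 * m ^ 3 := by
      rw [hn]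
      have := (sq_le_pow I).trans (Nat.mul_le_mul_left 9 e1)
      exact_mod_cast this
    have e3 : m ^ 3 ≤ m ^ 4 := pow_le_pow_right₀ hm (by norm_num)
    have e4 : ((I : ℝ) + 1) ^ 2 ≤ (3 / 2 * m ^ 2) ^ 2 := by nlinarith
    exact (sq_le_sq₀ (by positivity) (by positivity)).1 e4
  have ha : (0 : ℝ) ≤ A.card := Nat.cast_nonneg _
  nlinarith [mul_le_mul_of_nonneg_right h2' ha, mul_le_mul_of_nonneg_right h6 ha]

/-- the mean -/
lemma mean [Nonempty V] {A : Finset (SimpleGraph V)} (hA : BA A) (hne : A.Nonempty)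
    {m : ℝ} (hm : 1 ≤ m) (hn : m ^ 3 = Fintype.card V) :
    (∑ G ∈ A, (fr G : ℝ)) / A.card ≤ 1 + 1760 / m := by
  have hm0 : 0 < m := by linarith
  have h1 := second hA hne hm hn
  have h2 : m ^ 3 * ∑ G ∈ A, (fr G : ℝ) ≤ m ^ 3 * A.card + ∑ G ∈ A, (fr G : ℝ) ^ 2 := by
    have := sum_fr_sq hA
    rw [hn]
    exact_mod_cast this
  have ha : (0 : ℝ) < A.card := by
    exact_mod_cast Finset.card_pos.2 hne
  rw [div_le_iff₀ ha]
  have h3 : m ^ 3 * ∑ G ∈ A, (fr G : ℝ) ≤ m ^ 3 * ((1 + 1760 / m) * A.card) := by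
    refine h2.trans ((add_le_add_right h1 _).trans (le_of_eq ?_))
    field_simp
  exact le_of_mul_le_mul_left h3 (by positivity)

end

end Pool.Agent.H25.CP
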