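import Pool.Agent.H25.CP.Second

/-!
# Sharp bounds for the numbers of pairs in large components
-/

set_option autoImplicit false
set_option linter.unusedSectionVars false

open Classical Filter

namespace Pool.Agent.H25.CP

open Pool.Agent.Results.MP_572a82_pr.FragmentSize

section

variable {V : Type*} [Fintype V]

/-- the vertices in small components of `G - x` -/
noncomputable def sm (G : SimpleGraph V) (k : ℕ) (x : V) : Finset V :=
  Finset.univ.filter fun u => u ≠ x ∧ G.Reachable x u ∧ cs (delV G x) u < k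

/-- the number of `x` which separate `u`, in a small component of `G - x`, from a large one -/
noncomputable def c1 (G : SimpleGraph V) (k : ℕ) (u : V) : ℕ :=
  (Finset.univ.filter fun x => x ≠ u ∧ G.Reachable u x ∧ cs (delV G x) u < k ∧ ∃ y, B1 G k x y).card

lemma sm_aux {H : SimpleGraph V} {k : ℕ} {x x' u : V} (hx : N2 H k x) (hne : x' ≠ x)
    (h : (delV H x').Reachable u x) : k ≤ cs (delV H x') u := by
  obtain ⟨y, z, hy, hz, hyz⟩ := hx
  obtain ⟨w, hw, hwx⟩ : ∃ w, B1 H k x w ∧ ¬ (delV H x).Reachable w x' := by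
    by_cases h1 : (delV H x).Reachable y x'
    · exact ⟨z, hz, fun h2 => hyz (h1.trans h2.symm)⟩
    · exact ⟨y, hy, h1⟩
  rw [cs_eq h]
  refine hw.2.2.trans ?_
  apply Finset.card_le_card
  intro v hv
  simp only [Finset.mem_filter, Finset.mem_univ, true_and] at hv ⊢
  have h3 : H.Reachable v x := (hw.2.1.trans (hv.mono (delV_le H x))).symm
  exact (reach_swap h3 hne (fun h4 => hwx (hv.trans h4))).symm

lemma sm_disj {H : SimpleGraph V} {k : ℕ} {x x' : V} (hx : N2 H k x) (hx' : N2 H k x') (hne : x ≠ x') :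
    Disjoint (sm H k x) (sm H k x') := by
  rw [Finset.disjoint_left]
  intro u hu hu'
  simp only [sm, Finset.mem_filter, Finset.mem_univ, true_and] at hu hu'
  rcases reach_or hu.2.1.symm hne with h | h
  · have := sm_aux hx hne.symm h
    omega
  · have := sm_aux hx' hne h
    omega

lemma sum_sm (H : SimpleGraph V) (k : ℕ) :
    ∑ x ∈ Finset.univ.filter (fun x => N2 H k x), (sm H k x).card ≤ Fintype.card V := by
  rw [← Finset.card_biUnion]
  · exact Finset.card_le_univ _
  · intro x hx x' hx' hne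
    simp only [Finset.coe_filter, Finset.mem_univ, true_and, Set.mem_ofPred_eq] at hx hx'
    exact sm_disj hx hx' hne

/-- the weighted skeleton bound -/
lemma sum_nb_sm (H : SimpleGraph V) (k : ℕ) (hk : 1 ≤ k) :
    (∑ x ∈ Finset.univ.filter (fun x => N2 H k x), (nb H k x).card * (sm H k x).card) * k ≤
      2 * Fintype.card V * k + Fintype.card V * Fintype.card V := by
  set n := Fintype.card V with hn
  set N := Finset.univ.filter (fun x => N2 H k x) with hN
  have h1 : ∑ x ∈ N, ((nb H k x).card - 2) * k ≤ n := by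
    set T := N.filter fun x => 3 ≤ (nb H k x).card with hT
    have e1 : ∑ x ∈ N, ((nb H k x).card - 2) * k = ∑ x ∈ T, ((nb H k x).card - 2) * k := by
      symm
      apply Finset.sum_subset (Finset.filter_subset _ _)
      intro x hx hxT
      have h3 : ¬ 3 ≤ (nb H k x).card := fun h => hxT (Finset.mem_filter.2 ⟨hx, h⟩)
      have h4 : (nb H k x).card - 2 = 0 := by omega
      rw [h4, Nat.zero_mul]
    have e2 := sum_nb H k hk T
    have e3 : ∑ x ∈ T, (nb H k x).card = ∑ x ∈ T, ((nb H k x).card - 2) + 2 * T.card := by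
      have : 2 * T.card = ∑ x ∈ T, 2 := by rw [Finset.sum_const, smul_eq_mul, Nat.mul_comm]
      rw [this, ← Finset.sum_add_distrib]
      apply Finset.sum_congr rfl
      intro x hx
      have := (Finset.mem_filter.1 hx).2
      omega
    rw [e1, ← Finset.sum_mul]
    rw [e3, Nat.add_mul] at e2
    omega
  have h2 := sum_sm H k
  rw [← hN, ← hn] at h2
  have h3 : ∀ x ∈ N, (nb H k x).card * (sm H k x).card * k ≤
      2 * k * (sm H k x).card + n * (((nb H k x).card - 2) * k) := by
    intro x _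
    have e1 : (sm H k x).card ≤ n := Finset.card_le_univ _
    have e2 : (nb H k x).card ≤ 2 + ((nb H k x).card - 2) := by omega
    calc (nb H k x).card * (sm H k x).card * k ≤ (2 + ((nb H k x).card - 2)) * (sm H k x).card * k := by
          apply Nat.mul_le_mul_right
          exact Nat.mul_le_mul_right _ e2
      _ = 2 * k * (sm H k x).card + (sm H k x).card * (((nb H k x).card - 2) * k) := by ring
      _ ≤ _ := Nat.add_le_add_left (Nat.mul_le_mul_right _ e1) _
  rw [Finset.sum_mul]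
  refine (Finset.sum_le_sum h3).trans ?_
  rw [Finset.sum_add_distrib, ← Finset.mul_sum, ← Finset.mul_sum]
  calc 2 * k * ∑ x ∈ N, (sm H k x).card + n * ∑ x ∈ N, ((nb H k x).card - 2) * k
      ≤ 2 * k * n + n * n := Nat.add_le_add (Nat.mul_le_mul_left _ h2) (Nat.mul_le_mul_left _ h1)
    _ = _ := by ring

/-- transfer with weights -/
lemma sum_transfer {A B : Finset (SimpleGraph V)} (S : Finset (SimpleGraph V × V × V))
    (N : SimpleGraph V → Finset (V × V)) (w : SimpleGraph V → V × V → ℕ) (hS : S ⊆ E0 A) (hB : ∀ t ∈ S, ad t ∈ B)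
    (hN : ∀ t ∈ S, t.2 ∈ N (ad t)) : ∑ t ∈ S, w (ad t) t.2 ≤ ∑ G ∈ B, ∑ p ∈ N G, w G p := by
  rw [← Finset.sum_fiberwise_of_maps_to (s := S) (t := B) (g := ad) hB]
  apply Finset.sum_le_sum
  intro G _
  have h1 : ∑ t ∈ S.filter (fun t => ad t = G), w (ad t) t.2 = ∑ t ∈ S.filter (fun t => ad t = G), w G t.2 := by
    apply Finset.sum_congr rfl
    intro t ht
    rw [(Finset.mem_filter.1 ht).2]
  have hinj : Set.InjOn (fun t : SimpleGraph V × V × V => t.2) (S.filter (fun t => ad t = G) : Finset _) := by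
    intro t ht t' ht' heq
    simp only [Finset.coe_filter, Set.mem_ofPred_eq] at ht ht'
    exact ad_inj (mem_E0.1 (hS ht.1)).2 (mem_E0.1 (hS ht'.1)).2 (ht.2.trans ht'.2.symm) heq
  rw [h1, ← Finset.sum_image (f := fun p => w G p) hinj]
  apply Finset.sum_le_sum_of_subset
  intro p hp
  rw [Finset.mem_image] at hp
  obtain ⟨t, ht, rfl⟩ := hp
  have ht' := Finset.mem_filter.1 ht
  rw [← ht'.2]
  exact hN t ht'.1

/-- triples with a large component of `G - u` in the component of `u` -/
noncomputable def F1 (A : Finset (SimpleGraph V)) (k : ℕ) : Finset (SimpleGraph V × V × V) :=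
  (E1 A k).filter fun t => ∃ y, B1 t.1 k t.2.1 y

lemma n2_of_F1 {G : SimpleGraph V} {u v : V} {k : ℕ} (h : ¬ G.Reachable u v)
    (hv : k ≤ cs G v) (hN : ∃ y, B1 G k u y) : N2 (addE G u v) k u := by
  obtain ⟨y, hy⟩ := hN
  have hb := isBr_addE h
  have hvu : ¬ G.Reachable v u := fun h' => h h'.symm
  refine ⟨y, v, ⟨hy.1, hy.2.1.mono (le_addE G u v), ?_⟩, ⟨hb.1.ne.symm, hb.1.reachable, ?_⟩, ?_⟩
  · rw [delV_addE_self]; exact hy.2.2
  · rw [delV_addE_self]; exact hv.trans (cs_le_delV hvu)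
  · rw [delV_addE_self]
    intro h'
    exact h (hy.2.1.trans (h'.mono (delV_le G u)))

lemma sum_c1_F1 (A : Finset (SimpleGraph V)) (k : ℕ) :
    ∑ t ∈ E1 A k, c1 t.1 k t.2.1 ≤ ∑ t ∈ F1 A k, (sm t.1 k t.2.1).card := by
  have h1 : ∑ t ∈ E1 A k, c1 t.1 k t.2.1 =
      ((E1 A k ×ˢ (Finset.univ : Finset V)).filter
        fun q => q.2 ≠ q.1.2.1 ∧ q.1.1.Reachable q.1.2.1 q.2 ∧ cs (delV q.1.1 q.2) q.1.2.1 < k ∧
          ∃ y, B1 q.1.1 k q.2 y).card := by
    rw [Finset.card_filter, Finset.sum_product]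
    apply Finset.sum_congr rfl
    intro t _
    unfold c1
    rw [Finset.card_filter]
  have h2 : ∑ t ∈ F1 A k, (sm t.1 k t.2.1).card =
      ((F1 A k ×ˢ (Finset.univ : Finset V)).filter fun q => q.2 ∈ sm q.1.1 k q.1.2.1).card := by
    rw [Finset.card_filter, Finset.sum_product]
    apply Finset.sum_congr rfl
    intro t _
    rw [← Finset.card_filter]
    congr 1
    ext x
    simp
  rw [h1, h2]
  apply Finset.card_le_card_of_injOn (fun q => ((q.1.1, q.2, q.1.2.2), q.1.2.1))
  · rintro ⟨⟨G, u, v⟩, x⟩ hq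
    simp only [Finset.coe_filter, Finset.mem_product, Finset.mem_univ, and_true, Set.mem_ofPred_eq, mem_E1] at hq
    obtain ⟨⟨h1, h2, h3, h4⟩, h5, h6, h7, h8⟩ := hq
    simp only [Finset.coe_filter, Finset.mem_product, Finset.mem_univ, and_true, Set.mem_ofPred_eq,
      F1, Finset.mem_filter, mem_E1, sm, true_and]
    refine ⟨⟨⟨h1, fun h => h2 (h6.trans h), ?_, h4⟩, h8⟩, h5.symm, h6.symm, h7⟩
    rw [← cs_eq h6]; exact h3
  · rintro ⟨⟨G, u, v⟩, x⟩ _ ⟨⟨G', u', v'⟩, x'⟩ _ heq
    simp only [Prod.mk.injEq] at heq ⊢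
    tauto

lemma sum_c1_le {A : Finset (SimpleGraph V)} (hA : BA A) {k : ℕ} (hk : 1 ≤ k) :
    (∑ t ∈ E1 A k, c1 t.1 k t.2.1) * k ≤
      A.card * (2 * Fintype.card V * k + Fintype.card V * Fintype.card V) := by
  have h1 : ∑ t ∈ F1 A k, (sm t.1 k t.2.1).card ≤ ∑ t ∈ F1 A k, (sm (ad t) k t.2.1).card := by
    apply Finset.sum_le_sum
    rintro ⟨G, u, v⟩ _
    apply Finset.card_le_card
    intro x hx
    simp only [sm, Finset.mem_filter, Finset.mem_univ, true_and, ad] at hx ⊢
    refine ⟨hx.1, hx.2.1.mono (le_addE G u v), ?_⟩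
    rw [delV_addE_self]; exact hx.2.2
  have h2 := sum_transfer (A := A) (B := A) (F1 A k)
      (fun H => Finset.univ.filter fun p : V × V => N2 H k p.1 ∧ p.2 ∈ nb H k p.1)
      (fun H p => (sm H k p.1).card) ?_ ?_ ?_
  · have h3 : ∀ H ∈ A, (∑ p ∈ Finset.univ.filter (fun p : V × V => N2 H k p.1 ∧ p.2 ∈ nb H k p.1), (sm H k p.1).card) * k
        ≤ 2 * Fintype.card V * k + Fintype.card V * Fintype.card V := by
      intro H _
      refine le_trans (Nat.mul_le_mul_right k (le_of_eq ?_)) (sum_nb_sm H k hk)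
      rw [Finset.sum_filter, ← Finset.univ_product_univ, Finset.sum_product, Finset.sum_filter]
      apply Finset.sum_congr rfl
      intro x _
      by_cases hx : N2 H k x
      · simp only [hx, true_and, if_true]
        rw [← Finset.sum_filter, Finset.sum_const, smul_eq_mul]
        congr 2
        ext y
        simp
      · simp [hx]
    calc (∑ t ∈ E1 A k, c1 t.1 k t.2.1) * k
        ≤ (∑ H ∈ A, ∑ p ∈ Finset.univ.filter (fun p : V × V => N2 H k p.1 ∧ p.2 ∈ nb H k p.1), (sm H k p.1).card) * k :=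
          Nat.mul_le_mul_right _ ((sum_c1_F1 A k).trans (h1.trans h2))
      _ = ∑ H ∈ A, (∑ p ∈ Finset.univ.filter (fun p : V × V => N2 H k p.1 ∧ p.2 ∈ nb H k p.1), (sm H k p.1).card) * k := by
          rw [Finset.sum_mul]
      _ ≤ ∑ H ∈ A, (2 * Fintype.card V * k + Fintype.card V * Fintype.card V) := Finset.sum_le_sum h3
      _ = _ := by rw [Finset.sum_const, smul_eq_mul]
  · intro t ht
    simp only [F1, Finset.mem_filter, mem_E1] at ht
    rw [mem_E0]
    exact ⟨ht.1.1, ht.1.2.1⟩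
  · intro t ht
    simp only [F1, Finset.mem_filter] at ht
    exact ad_mem hA ht.1
  · rintro ⟨G, u, v⟩ ht
    simp only [F1, Finset.mem_filter, mem_E1] at ht
    obtain ⟨⟨-, h2, h3, h4⟩, h5⟩ := ht
    simp only [Finset.mem_filter, Finset.mem_univ, true_and, ad, mem_nb]
    refine ⟨n2_of_F1 h2 h4 h5, isBr_addE h2, ?_⟩
    rw [delE_addE h2]; exact h4

/-- an `N2` vertex of the union separates `u` from a large component -/
lemma big_of {G : SimpleGraph V} {u v x : V} {k : ℕ} (h : ¬ G.Reachable u v)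
    (hux : G.Reachable u x) (hxu : x ≠ u) (hN : N2 (addE G u v) k x) :
    ∃ y, B1 G k x y ∧ ¬ (delV G x).Reachable y u := by
  have hxv : x ≠ v := by
    rintro rfl
    exact h hux
  have hd := delV_addE (G := G) hxu hxv
  have hex : ∃ y, B1 (addE G u v) k x y ∧ ¬ (delV (addE G u v) x).Reachable y u := by
    obtain ⟨y, z, hy, hz, hyz⟩ := hN
    by_cases h1 : (delV (addE G u v) x).Reachable y u
    · exact ⟨z, hz, fun h2 => hyz (h1.trans h2.symm)⟩
    · exact ⟨y, hy, h1⟩
  obtain ⟨y, ⟨hyx, hry, hcy⟩, hyu⟩ := hex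
  rw [hd] at hcy hyu
  have huv : (addE (delV G x) u v).Adj u v := by
    rw [addE_adj]
    refine Or.inr ⟨Or.inl ⟨rfl, rfl⟩, ?_⟩
    rintro rfl
    exact h (SimpleGraph.Reachable.refl _)
  have hyv : ¬ (addE (delV G x) u v).Reachable y v := fun h' => hyu (h'.trans huv.symm.reachable)
  have hyu' : ¬ (delV G x).Reachable y u := fun h' => hyu (h'.mono (le_addE _ _ _))
  have hyv' : ¬ (delV G x).Reachable y v := fun h' => hyv (h'.mono (le_addE _ _ _))
  have hcs : cs (addE (delV G x) u v) y ≤ cs (delV G x) y := by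
    apply Finset.card_le_card
    intro w hw
    simp only [Finset.mem_filter, Finset.mem_univ, true_and] at hw ⊢
    rcases reach_addE hw with h1 | ⟨h1, -⟩ | ⟨h1, -⟩
    · exact h1
    · exact absurd h1 hyu'
    · exact absurd h1 hyv'
  have hxy : G.Reachable x y := by
    rcases reach_addE hry with h1 | ⟨-, h1⟩ | ⟨h1, -⟩
    · exact h1
    · exfalso
      have h2 : ¬ G.Reachable v x := fun h' => h (hux.trans h'.symm)
      exact hyv' (reach_delV h1 h2).symm
    · exact absurd (hux.trans h1) h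
  exact ⟨y, ⟨hyx, hxy, hcy.trans hcs⟩, hyu'⟩

lemma card_N2_addE' {G : SimpleGraph V} {u v : V} {k : ℕ} (h : ¬ G.Reachable u v)
    (hno : ∀ w, k ≤ cs G w → G.Reachable w u ∨ G.Reachable w v) :
    (Finset.univ.filter fun x => N2 (addE G u v) k x).card ≤
      (c2 G k u + c2 G k v) + (c1 G k u + c1 G k v) + 2 := by
  set A1 := Finset.univ.filter fun x => G.Reachable u x ∧ N2 G k x with hA1
  set A2 := Finset.univ.filter fun x => G.Reachable v x ∧ N2 G k x with hA2
  set A3 := Finset.univ.filter fun x => x ≠ u ∧ G.Reachable u x ∧ cs (delV G x) u < k ∧ ∃ y, B1 G k x y with hA3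
  set A4 := Finset.univ.filter fun x => x ≠ v ∧ G.Reachable v x ∧ cs (delV G x) v < k ∧ ∃ y, B1 G k x y with hA4
  have hsub : (Finset.univ.filter fun x => N2 (addE G u v) k x) ⊆
      (A1 ∪ A2) ∪ ((A3 ∪ A4) ∪ {u, v}) := by
    intro x hx
    simp only [Finset.mem_filter, Finset.mem_univ, true_and] at hx
    by_cases hxu : x = u
    · simp [hxu]
    by_cases hxv : x = v
    · simp [hxv]
    have h1 : G.Reachable u x ∨ G.Reachable v x := by
      by_contra hcon
      push Not at hcon
      obtain ⟨y, z, ⟨hyx, hry, hcy⟩, -⟩ := hx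
      have h2 : cs (delV (addE G u v) x) y ≤ cs G x := by
        refine (cs_mono (delV_le _ _) y).trans ?_
        rw [← cs_eq hry]
        apply Finset.card_le_card
        intro w hw
        simp only [Finset.mem_filter, Finset.mem_univ, true_and] at hw ⊢
        rcases reach_addE hw with h1 | ⟨h1, -⟩ | ⟨h1, -⟩
        · exact h1
        · exact absurd h1.symm hcon.1
        · exact absurd h1.symm hcon.2
      rcases hno x (hcy.trans h2) with h3 | h3
      · exact hcon.1 h3.symm
      · exact hcon.2 h3.symm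
    rcases h1 with h1 | h1
    · obtain ⟨y, hy, hyu⟩ := big_of h h1 hxu hx
      by_cases hc : cs (delV G x) u < k
      · have : x ∈ A3 := by
          rw [hA3]
          simp only [Finset.mem_filter, Finset.mem_univ, true_and]
          exact ⟨hxu, h1, hc, y, hy⟩
        simp [this]
      · have : x ∈ A1 := by
          rw [hA1]
          simp only [Finset.mem_filter, Finset.mem_univ, true_and]
          push Not at hc
          exact ⟨h1, y, u, hy, ⟨Ne.symm hxu, h1.symm, hc⟩, hyu⟩
        simp [this]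
    · rw [addE_comm] at hx
      obtain ⟨y, hy, hyu⟩ := big_of (fun h' => h h'.symm) h1 hxv hx
      by_cases hc : cs (delV G x) v < k
      · have : x ∈ A4 := by
          rw [hA4]
          simp only [Finset.mem_filter, Finset.mem_univ, true_and]
          exact ⟨hxv, h1, hc, y, hy⟩
        simp [this]
      · have : x ∈ A2 := by
          rw [hA2]
          simp only [Finset.mem_filter, Finset.mem_univ, true_and]
          push Not at hc
          exact ⟨h1, y, v, hy, ⟨Ne.symm hxv, h1.symm, hc⟩, hyu⟩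
        simp [this]
  have h1 : A1.card = c2 G k u := rfl
  have h2 : A2.card = c2 G k v := rfl
  have h3 : A3.card = c1 G k u := rfl
  have h4 : A4.card = c1 G k v := rfl
  have h5 : ({u, v} : Finset V).card ≤ 2 := Finset.card_le_two
  have h6 := Finset.card_le_card hsub
  have h7 := Finset.card_union_le (A1 ∪ A2) ((A3 ∪ A4) ∪ {u, v})
  have h8 := Finset.card_union_le A1 A2
  have h9 := Finset.card_union_le (A3 ∪ A4) {u, v}
  have h10 := Finset.card_union_le A3 A4
  omega

lemma good_bound2 {A : Finset (SimpleGraph V)} {k : ℕ} (hk1 : 1 ≤ k)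
    {t : SimpleGraph V × V × V} (ht : t ∈ E1 A k) (hnt : t ∉ E3 A k) :
    (fib A k (ad t)).card * k ≤ (10 * k + 2 * Fintype.card V) +
      4 * k * ((c2 t.1 k t.2.1 + c2 t.1 k t.2.2) + (c1 t.1 k t.2.1 + c1 t.1 k t.2.2)) := by
  obtain ⟨G, u, v⟩ := t
  have ht' := ht
  rw [mem_E1] at ht'
  obtain ⟨-, hne, hu, hv⟩ := ht'
  simp only at hne hu hv
  have hno : ∀ w, k ≤ cs G w → G.Reachable w u ∨ G.Reachable w v := by
    intro w hw
    by_contra hcon
    push Not at hcon
    exact hnt (Finset.mem_filter.2 ⟨ht, w, hw, hcon.1, hcon.2⟩)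
  have h1 : ∀ x y, Big (addE G u v) k x y → (addE G u v).Reachable u x := by
    intro x y hb
    have huv : (addE G u v).Reachable u v := (isBr_addE hne).1.reachable
    by_contra hcon
    have h2 : cs (addE G u v) x ≤ cs G x := by
      apply Finset.card_le_card
      intro w hw
      simp only [Finset.mem_filter, Finset.mem_univ, true_and] at hw ⊢
      rcases reach_addE hw with h1 | ⟨h1, -⟩ | ⟨h1, -⟩
      · exact h1
      · exact absurd (h1.mono (le_addE G u v)).symm hcon
      · exact absurd (huv.trans (h1.mono (le_addE G u v)).symm) hcon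
    have h3 : k ≤ cs G x := (hb.2.1.trans (cs_mono (delE_le _ _ _) _)).trans h2
    rcases hno x h3 with h4 | h4
    · exact hcon (h4.mono (le_addE G u v)).symm
    · exact hcon (huv.trans (h4.mono (le_addE G u v)).symm)
  have h2 := card_MS' hk1 u h1
  have h3 := card_N2_addE' hne hno
  have h4 := fib_le A k (addE G u v)
  simp only [ad]
  calc (fib A k (addE G u v)).card * k ≤ (MS (addE G u v) k).card * k := Nat.mul_le_mul_right _ h4
    _ ≤ 2 * k + 2 * (2 * (Finset.univ.filter fun x => N2 (addE G u v) k x).card * k + Fintype.card V) := h2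
    _ ≤ 2 * k + 2 * (2 * ((c2 G k u + c2 G k v) + (c1 G k u + c1 G k v) + 2) * k + Fintype.card V) := by
      apply Nat.add_le_add_left
      apply Nat.mul_le_mul_left
      apply Nat.add_le_add_right
      apply Nat.mul_le_mul_right
      apply Nat.mul_le_mul_left
      exact h3
    _ = _ := by ring

lemma sum_c1_symm (A : Finset (SimpleGraph V)) (k1 k2 : ℕ) :
    ∑ t ∈ E1 A k1, c1 t.1 k2 t.2.2 = ∑ t ∈ E1 A k1, c1 t.1 k2 t.2.1 := by
  apply Finset.sum_nbij' (fun t => (t.1, t.2.2, t.2.1)) (fun t => (t.1, t.2.2, t.2.1))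
  · intro t ht
    rw [mem_E1] at ht ⊢
    exact ⟨ht.1, fun h => ht.2.1 h.symm, ht.2.2.2, ht.2.2.1⟩
  · intro t ht
    rw [mem_E1] at ht ⊢
    exact ⟨ht.1, fun h => ht.2.1 h.symm, ht.2.2.2, ht.2.2.1⟩
  · intro t _; rfl
  · intro t _; rfl
  · intro t _; rfl

lemma main_sum2 {A : Finset (SimpleGraph V)} (hA : BA A) {k : ℕ} (hk1 : 1 ≤ k) :
    (∑ t ∈ E1 A k, (fib A k (ad t)).card) * k ≤
      (E1 A k).card * (10 * k + 2 * Fintype.card V) +
      8 * k * ((F2 A k k).card * Fintype.card V) +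
      8 * (A.card * (2 * Fintype.card V * k + Fintype.card V * Fintype.card V)) +
      (E3 A k).card * (2 * Fintype.card V * k) := by
  set n := Fintype.card V with hn
  have h1 : ∀ t ∈ E1 A k, (fib A k (ad t)).card * k ≤
      ((10 * k + 2 * n) + 4 * k * ((c2 t.1 k t.2.1 + c2 t.1 k t.2.2) + (c1 t.1 k t.2.1 + c1 t.1 k t.2.2))) +
      (if t ∈ E3 A k then 2 * n * k else 0) := by
    intro t ht
    by_cases h : t ∈ E3 A k
    · rw [if_pos h]
      exact (bad_bound t).trans (Nat.le_add_left _ _)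
    · rw [if_neg h]
      exact good_bound2 hk1 ht h
  have h2 : ∑ t ∈ E1 A k, (if t ∈ E3 A k then 2 * n * k else 0) = (E3 A k).card * (2 * n * k) := by
    rw [← Finset.sum_filter, Finset.sum_const, smul_eq_mul]
    congr 2
    ext t
    simp only [E3, Finset.mem_filter]
    tauto
  have h3 : ∑ t ∈ E1 A k, 4 * k * ((c2 t.1 k t.2.1 + c2 t.1 k t.2.2) + (c1 t.1 k t.2.1 + c1 t.1 k t.2.2)) ≤
      8 * k * ((F2 A k k).card * n) + 8 * (A.card * (2 * n * k + n * n)) := by
    rw [← Finset.mul_sum, Finset.sum_add_distrib, Finset.sum_add_distrib, Finset.sum_add_distrib,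
      sum_c2_symm, sum_c1_symm]
    have e1 := sum_c2_le A k k
    have e2 := sum_c1_le hA hk1
    rw [← hn] at e1 e2
    calc _ = 8 * k * (∑ t ∈ E1 A k, c2 t.1 k t.2.1) + 8 * ((∑ t ∈ E1 A k, c1 t.1 k t.2.1) * k) := by ring
      _ ≤ _ := Nat.add_le_add (Nat.mul_le_mul_left _ e1) (Nat.mul_le_mul_left _ e2)
  calc (∑ t ∈ E1 A k, (fib A k (ad t)).card) * k = ∑ t ∈ E1 A k, (fib A k (ad t)).card * k := by
        rw [Finset.sum_mul]
    _ ≤ ∑ t ∈ E1 A k, (((10 * k + 2 * n) + 4 * k * ((c2 t.1 k t.2.1 + c2 t.1 k t.2.2) +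
      (c1 t.1 k t.2.1 + c1 t.1 k t.2.2))) + (if t ∈ E3 A k then 2 * n * k else 0)) := Finset.sum_le_sum h1
    _ = (E1 A k).card * (10 * k + 2 * n) +
        ∑ t ∈ E1 A k, 4 * k * ((c2 t.1 k t.2.1 + c2 t.1 k t.2.2) + (c1 t.1 k t.2.1 + c1 t.1 k t.2.2)) +
        (E3 A k).card * (2 * n * k) := by
        rw [Finset.sum_add_distrib, Finset.sum_add_distrib, h2, Finset.sum_const, smul_eq_mul]
    _ ≤ _ := by
        apply Nat.add_le_add_right
        rw [Nat.add_assoc]
        exact Nat.add_le_add_left h3 _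

lemma W_sharp [Nonempty V] {A : Finset (SimpleGraph V)} (hA : BA A) (hne : A.Nonempty) {k : ℕ}
    (hk1 : 1 ≤ k) {n K : ℝ} (hn : n = Fintype.card V) (hK1 : K = k) (hKn : K ≤ n) :
    ((E1 A k).card : ℝ) / A.card ≤
      (10 + 2 * n / K + 4 * n ^ 2 / K ^ 2) + √(48 * n ^ 2 / K) := by
  have hn0 : 0 < n := by
    rw [hn]
    exact_mod_cast Fintype.card_pos
  have hK10 : 0 < K := by
    rw [hK1]
    exact_mod_cast hk1
  have ha : (0 : ℝ) < A.card := by
    exact_mod_cast Finset.card_pos.2 hne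
  set a : ℝ := (A.card : ℝ) with hadef
  set W : ℝ := ((E1 A k).card : ℝ) with hW
  set S : ℝ := ((∑ t ∈ E1 A k, (fib A k (ad t)).card : ℕ) : ℝ) with hS
  set F : ℝ := ((F2 A k k).card : ℝ) with hF
  set E : ℝ := ((E3 A k).card : ℝ) with hE
  set y : ℝ := ((Y A k).card : ℝ) with hy
  have i1 : W ^ 2 ≤ a * S := by
    have := cs_ineq hA k
    rw [hW, hadef, hS]
    exact_mod_cast this
  have i2 : S * K ≤ W * (10 * K + 2 * n) + 8 * K * (F * n) + 8 * (a * (2 * n * K + n * n)) + E * (2 * n * K) := by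
    have := main_sum2 hA hk1
    rw [hS, hW, hF, hE, hn, hK1, hadef]
    exact_mod_cast this
  have i3 : F * K ≤ a * (3 * n) := by
    have := card_F2' hA (le_refl k) hk1
    rw [hF, hadef, hn, hK1]
    exact_mod_cast this
  have i4 : E ≤ y * (2 * n) := by
    have := card_E3' hA k
    rw [hE, hy, hn]
    exact_mod_cast this
  have i6 : y * (K * K) ≤ W := by
    have := card_Y A k
    rw [hy, hW, hK1]
    exact_mod_cast this
  have hW0 : 0 ≤ W := by positivity
  have j6 : y ≤ W / (K * K) := by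
    rw [le_div_iff₀ (mul_pos hK10 hK10)]; exact i6
  have j4 : E ≤ W / (K * K) * (2 * n) := i4.trans (mul_le_mul_of_nonneg_right j6 (by positivity))
  have j2 : S ≤ (10 + 2 * n / K + 4 * n ^ 2 / K ^ 2) * W + a * (48 * n ^ 2 / K) := by
    have k1' : 8 * K * (F * n) ≤ 24 * n ^ 2 * a := by
      calc 8 * K * (F * n) = 8 * n * (F * K) := by ring
        _ ≤ 8 * n * (a * (3 * n)) := mul_le_mul_of_nonneg_left i3 (by positivity)
        _ = _ := by ring
    have k2' : E * (2 * n * K) ≤ W / (K * K) * (2 * n) * (2 * n * K) :=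
      mul_le_mul_of_nonneg_right j4 (by positivity)
    have k4' : 8 * (a * (2 * n * K + n * n)) ≤ 24 * n ^ 2 * a := by
      have : n * K ≤ n * n := mul_le_mul_of_nonneg_left hKn hn0.le
      nlinarith
    have k3 : S * K ≤ ((10 + 2 * n / K + 4 * n ^ 2 / K ^ 2) * W + a * (48 * n ^ 2 / K)) * K := by
      have : ((10 + 2 * n / K + 4 * n ^ 2 / K ^ 2) * W + a * (48 * n ^ 2 / K)) * K =
        W * (10 * K + 2 * n) + 24 * n ^ 2 * a + 24 * n ^ 2 * a +
        W / (K * K) * (2 * n) * (2 * n * K) := by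
        field_simp
        ring
      rw [this]
      linarith
    exact le_of_mul_le_mul_right k3 hK10
  apply quad (by positivity) (by positivity)
  have m1 : W ^ 2 ≤ a * ((10 + 2 * n / K + 4 * n ^ 2 / K ^ 2) * W + a * (48 * n ^ 2 / K)) :=
    i1.trans (mul_le_mul_of_nonneg_left j2 ha.le)
  rw [div_pow, div_le_iff₀ (by positivity)]
  calc W ^ 2 ≤ _ := m1
    _ = _ := by
      field_simp

end

end Pool.Agent.H25.CP
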