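import Pool.Graph.R_seed8.Results.MP_572a82_pr.FragmentSize

/-!
# The skeleton of the large bridges of a graph: a sharp count of the branchings
-/

set_option autoImplicit false
set_option linter.unusedSectionVars false

open Filter

namespace Pool.Agent.H25.CP

open Pool.Agent.Results.MP_572a82_pr.FragmentSize

variable {V : Type*} [Fintype V]

/-- If the sets `S x`, `x ∈ T`, consist of at least three vertices in different components of `G - x`, each with at least
`k` elements in `U`, then `∑ (|S x| - 2) k ≤ |U|`. -/
lemma card_branch (G : SimpleGraph V) (k : ℕ) (hk : 1 ≤ k) (S : V → Finset V) : ∀ (t : ℕ) (T U : Finset V), T.card = t →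
    (∀ x ∈ T, 3 ≤ (S x).card ∧ (∀ y ∈ S x, B1U G k U x y) ∧
      ∀ y ∈ S x, ∀ z ∈ S x, y ≠ z → ¬ (delV G x).Reachable y z) →
    ∑ x ∈ T, ((S x).card - 2) * k ≤ U.card := by
  classical
  intro t
  induction t with
  | zero =>
    intro T U hT _
    rw [Finset.card_eq_zero] at hT
    rw [hT]
    simp
  | succ t ih =>
    intro T U hT hN
    -- choose the maximal pair
    let PS : Finset (V × V) := (T ×ˢ (Finset.univ : Finset V)).filter fun p => p.2 ≠ p.1 ∧ G.Reachable p.1 p.2
    have hTne : T.Nonempty := by
      rw [← Finset.card_pos, hT]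
      omega
    have hPS : PS.Nonempty := by
      obtain ⟨x, hx⟩ := hTne
      obtain ⟨h3, hy, -⟩ := hN x hx
      obtain ⟨y1, hy1⟩ := Finset.card_pos.1 (show 0 < (S x).card by omega)
      refine ⟨(x, y1), ?_⟩
      simp only [PS, Finset.mem_filter, Finset.mem_product, Finset.mem_univ, and_true]
      exact ⟨hx, (hy y1 hy1).1, (hy y1 hy1).2.1⟩
    obtain ⟨⟨x0, y0⟩, hp0, hmax⟩ := Finset.exists_max_image PS
      (fun p => cU (delV G p.1) U p.2) hPS
    simp only [PS, Finset.mem_filter, Finset.mem_product, Finset.mem_univ, and_true] at hp0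
    obtain ⟨hx0, hy0x0, hr0⟩ := hp0
    have hmax' : ∀ x ∈ T, ∀ y, y ≠ x → G.Reachable x y →
        cU (delV G x) U y ≤ cU (delV G x0) U y0 := by
      intro x hx y hyx hxy
      apply hmax (x, y)
      simp only [PS, Finset.mem_filter, Finset.mem_product, Finset.mem_univ, and_true]
      exact ⟨hx, hyx, hxy⟩
    obtain ⟨hS3, hSB, hSsep⟩ := hN x0 hx0
    -- at most one element of `S x0` reaches a given vertex
    have one : ∀ a : V, ((S x0).filter fun y => (delV G x0).Reachable y a).card ≤ 1 := by
      intro a
      rw [Finset.card_le_one]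
      intro y hy z hz
      rw [Finset.mem_filter] at hy hz
      by_contra hne
      exact hSsep y hy.1 z hz.1 hne (hy.2.trans hz.2.symm)
    have third : ∀ a b : V, ∃ y ∈ S x0, ¬ (delV G x0).Reachable y a ∧
        ¬ (delV G x0).Reachable y b := by
      intro a b
      by_contra hcon
      push Not at hcon
      have hsub : S x0 ⊆ ((S x0).filter fun y => (delV G x0).Reachable y a) ∪
          ((S x0).filter fun y => (delV G x0).Reachable y b) := by
        intro y hy
        by_cases h1 : (delV G x0).Reachable y a
        · exact Finset.mem_union_left _ (Finset.mem_filter.2 ⟨hy, h1⟩)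
        · exact Finset.mem_union_right _ (Finset.mem_filter.2 ⟨hy, hcon y hy h1⟩)
      have h1 := (Finset.card_le_card hsub).trans (Finset.card_union_le _ _)
      have h2 := one a
      have h3 := one b
      omega
    -- other elements of T lie in the component of y0
    have hin : ∀ x' ∈ T, x' ≠ x0 → G.Reachable x0 x' → (delV G x0).Reachable y0 x' := by
      intro x' hx' hne hr
      by_contra hcon
      obtain ⟨y, hyS, hya, hyb⟩ := third y0 x'
      have hy := hSB y hyS
      have h1 := cU_swap (U := U) hne hr0 hy.2.1 hcon hyb (fun h => hya h.symm)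
      have h2 := hmax' x' hx' x0 hne.symm hr.symm
      have h3 := hy.2.2
      omega
    obtain ⟨z2, hz2S, hz2y, -⟩ := third y0 y0
    have hz2 := hSB z2 hz2S
    let R : Finset V := ((S x0).filter fun y => ¬ (delV G x0).Reachable y y0).erase z2
    have hRS : ∀ z ∈ R, z ∈ S x0 ∧ ¬ (delV G x0).Reachable z y0 ∧ z ≠ z2 := by
      intro z hz
      simp only [R, Finset.mem_erase, Finset.mem_filter] at hz
      exact ⟨hz.2.1, hz.2.2, hz.1⟩
    have hRc : (S x0).card - 2 ≤ R.card := by
      have h1 := Finset.card_filter_add_card_filter_not (s := S x0) (p := fun y => (delV G x0).Reachable y y0)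
      have h2 := one y0
      have h3 : R.card = ((S x0).filter fun y => ¬ (delV G x0).Reachable y y0).card - 1 :=
        Finset.card_erase_of_mem (Finset.mem_filter.2 ⟨hz2S, hz2y⟩)
      omega
    let D : Finset V := R.biUnion fun z => U.filter fun w => (delV G x0).Reachable z w
    have hDc : R.card * k ≤ D.card := by
      have h1 : D.card = ∑ z ∈ R, (U.filter fun w => (delV G x0).Reachable z w).card := by
        apply Finset.card_biUnion
        intro y hy z hz hyz
        simp only [Function.onFun]
        rw [Finset.disjoint_left]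
        intro w hw hw'
        rw [Finset.mem_filter] at hw hw'
        exact hSsep y (hRS y hy).1 z (hRS z hz).1 hyz (hw.2.trans hw'.2.symm)
      rw [h1, ← smul_eq_mul, ← Finset.sum_const]
      exact Finset.sum_le_sum fun z hz => (hSB z (hRS z hz).1).2.2
    have hDU : D ⊆ U := by
      intro w hw
      obtain ⟨z, -, hw⟩ := Finset.mem_biUnion.1 hw
      exact (Finset.mem_filter.1 hw).1
    have hT' : (T.erase x0).card = t := by
      rw [Finset.card_erase_of_mem hx0, hT]
      rfl
    have hrec := ih (T.erase x0) (U \ D) hT' ?_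
    · rw [Finset.card_sdiff_of_subset hDU] at hrec
      have h5 : D.card ≤ U.card := Finset.card_le_card hDU
      rw [← Finset.add_sum_erase T _ hx0]
      have h6 : ((S x0).card - 2) * k ≤ D.card := (Nat.mul_le_mul_right k hRc).trans hDc
      omega
    · intro x' hx'
      rw [Finset.mem_erase] at hx'
      obtain ⟨hne, hx'T⟩ := hx'
      obtain ⟨c1, c2, c3⟩ := hN x' hx'T
      refine ⟨c1, ?_, c3⟩
      intro w hwS
      have hw := c2 w hwS
      refine ⟨hw.1, hw.2.1, ?_⟩
      by_cases hdis : ∃ q ∈ D, (delV G x').Reachable w q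
      · obtain ⟨q, hqD, hwq⟩ := hdis
        obtain ⟨z, hzR, hq⟩ := Finset.mem_biUnion.1 hqD
        rw [Finset.mem_filter] at hq
        obtain ⟨hzS, hzy, hzz2⟩ := hRS z hzR
        have hzB := hSB z hzS
        -- x' is in the component of x0
        have hrq : G.Reachable x0 q := hzB.2.1.trans (hq.2.mono (delV_le G x0))
        have hr : G.Reachable x0 x' :=
          (hrq.trans (hwq.mono (delV_le G x')).symm).trans hw.2.1.symm
        have hx'y0 := hin x' hx'T hne hr
        have hn1 : ¬ (delV G x0).Reachable q x' := fun h =>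
          hzy ((hq.2.trans h).trans hx'y0.symm)
        have h6 : (delV G x').Reachable q x0 := reach_swap hrq.symm hne hn1
        have h7 : (delV G x').Reachable w x0 := hwq.trans h6
        have hsub : (U.filter fun p => (delV G x0).Reachable z2 p) ⊆
            ((U \ D).filter fun p => (delV G x').Reachable w p) := by
          intro p hp
          rw [Finset.mem_filter] at hp
          rw [Finset.mem_filter, Finset.mem_sdiff]
          refine ⟨⟨hp.1, ?_⟩, ?_⟩
          · intro hpD
            obtain ⟨z', hz'R, hp'⟩ := Finset.mem_biUnion.1 hpD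
            rw [Finset.mem_filter] at hp'
            obtain ⟨hz'S, -, hz'z2⟩ := hRS z' hz'R
            exact hSsep z' hz'S z2 hz2S hz'z2 (hp'.2.trans hp.2.symm)
          · have hrp : G.Reachable p x0 := (hz2.2.1.trans (hp.2.mono (delV_le G x0))).symm
            have hn2 : ¬ (delV G x0).Reachable p x' := fun h =>
              hz2y ((hp.2.trans h).trans hx'y0.symm)
            exact h7.trans (reach_swap hrp hne hn2).symm
        exact hz2.2.2.trans (Finset.card_le_card hsub)
      · push Not at hdis
        refine hw.2.2.trans ?_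
        apply Finset.card_le_card
        intro p hp
        rw [Finset.mem_filter] at hp
        rw [Finset.mem_filter, Finset.mem_sdiff]
        exact ⟨⟨hp.1, fun h => hdis p h hp.2⟩, hp.2⟩

/-- the neighbours along bridges with a large far side -/
noncomputable def nb (G : SimpleGraph V) (k : ℕ) (x : V) : Finset V := by
  classical
  exact Finset.univ.filter fun v => isBr G x v ∧ k ≤ cs (delE G x v) v

lemma mem_nb {G : SimpleGraph V} {k : ℕ} {x v : V} : v ∈ nb G k x ↔ isBr G x v ∧ k ≤ cs (delE G x v) v := by
  classical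
  simp [nb]

/-- the skeleton bound -/
lemma sum_nb (G : SimpleGraph V) (k : ℕ) (hk : 1 ≤ k) (N : Finset V) :
    (∑ x ∈ N, (nb G k x).card) * k ≤ 2 * N.card * k + Fintype.card V := by
  classical
  set T : Finset V := Finset.univ.filter fun x => 3 ≤ (nb G k x).card with hT
  have h1 : ∑ x ∈ T, ((nb G k x).card - 2) * k ≤ (Finset.univ : Finset V).card := by
    apply card_branch G k hk (nb G k) T.card T Finset.univ rfl
    intro x hx
    simp only [hT, Finset.mem_filter, Finset.mem_univ, true_and] at hx
    refine ⟨hx, ?_, ?_⟩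
    · intro y hy
      rw [mem_nb] at hy
      refine ⟨hy.1.1.ne.symm, hy.1.1.reachable, ?_⟩
      have h2 := hy.2.trans (cs_side hy.1)
      exact h2
    · intro v hv w hw hvw h
      rw [mem_nb] at hv hw
      have h1 := h.mono (delV_le_delE G x v)
      have h2 : (delE G x v).Adj w x := ⟨hw.1.1.symm, fun h' => hw.1.1.ne h'.1.symm, fun h' => hvw h'.1.symm⟩
      exact hv.1.2 (h1.trans h2.reachable).symm
  have h2 : ∑ x ∈ N, (nb G k x).card ≤ ∑ x ∈ N, (2 + ((nb G k x).card - 2)) :=
    Finset.sum_le_sum fun x _ => by omega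
  have h3 : ∑ x ∈ N, ((nb G k x).card - 2) ≤ ∑ x ∈ T, ((nb G k x).card - 2) := by
    have h4 : ∑ x ∈ N, ((nb G k x).card - 2) ≤ ∑ x, ((nb G k x).card - 2) :=
      Finset.sum_le_sum_of_subset (Finset.subset_univ N)
    refine h4.trans (le_of_eq ?_)
    rw [hT, Finset.sum_filter]
    apply Finset.sum_congr rfl
    intro x _
    split_ifs with h5
    · rfl
    · omega
  rw [Finset.sum_add_distrib, Finset.sum_const, smul_eq_mul] at h2
  rw [← Finset.sum_mul, Finset.card_univ] at h1
  calc (∑ x ∈ N, (nb G k x).card) * k ≤ (N.card * 2 + ∑ x ∈ N, ((nb G k x).card - 2)) * k :=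
        Nat.mul_le_mul_right k h2
    _ ≤ (N.card * 2 + ∑ x ∈ T, ((nb G k x).card - 2)) * k :=
        Nat.mul_le_mul_right k (Nat.add_le_add_left h3 _)
    _ = 2 * N.card * k + (∑ x ∈ T, ((nb G k x).card - 2)) * k := by ring
    _ ≤ 2 * N.card * k + Fintype.card V := Nat.add_le_add_left h1 _

end Pool.Agent.H25.CP
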