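import Pool.Agent.H25.CP.Final

/-!
# The tail of the fragment size: `P(frag ≥ k) ≤ C k^(-3/2)`
-/

set_option autoImplicit false
set_option linter.unusedSectionVars false

open Classical Filter

namespace Pool.Agent.H25.CP

open Pool.Agent.Results.MP_572a82_pr.FragmentSize

section

variable {V : Type*} [Fintype V]

/-- the graphs with more than `n / 2` vertices outside a largest component -/
noncomputable def Y2 (A : Finset (SimpleGraph V)) : Finset (SimpleGraph V) :=
  A.filter fun G => Fintype.card V < 2 * fr G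

lemma card_Y2 [Nonempty V] {A : Finset (SimpleGraph V)} (hA : BA A) (hne : A.Nonempty)
    {r : ℝ} (hr1 : 1 ≤ r) (hn : r ^ 2 = Fintype.card V) :
    ((Y2 A).card : ℝ) * (r ^ 2) ^ 2 ≤ 29000 * r * A.card := by
  have h1 := second2 hA hne hr1 hn
  have h2 : ((Y2 A).card : ℝ) * (r ^ 2) ^ 2 ≤ 4 * ∑ G ∈ A, (fr G : ℝ) ^ 2 := by
    have h3 : ∑ G ∈ Y2 A, (fr G : ℝ) ^ 2 ≤ ∑ G ∈ A, (fr G : ℝ) ^ 2 :=
      Finset.sum_le_sum_of_subset_of_nonneg (Finset.filter_subset _ _) (fun _ _ _ => by positivity)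
    have h4 : ∀ G ∈ Y2 A, (r ^ 2) ^ 2 ≤ 4 * (fr G : ℝ) ^ 2 := by
      intro G hG
      have h5 := (Finset.mem_filter.1 hG).2
      have h6 : r ^ 2 ≤ 2 * (fr G : ℝ) := by
        rw [hn]
        exact_mod_cast h5.le
      calc (r ^ 2) ^ 2 ≤ (2 * (fr G : ℝ)) ^ 2 := pow_le_pow_left₀ (by positivity) h6 2
        _ = _ := by ring
    calc ((Y2 A).card : ℝ) * (r ^ 2) ^ 2 = ∑ G ∈ Y2 A, (r ^ 2) ^ 2 := by
          rw [Finset.sum_const, nsmul_eq_mul]
      _ ≤ ∑ G ∈ Y2 A, 4 * (fr G : ℝ) ^ 2 := Finset.sum_le_sum h4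
      _ = 4 * ∑ G ∈ Y2 A, (fr G : ℝ) ^ 2 := by rw [Finset.mul_sum]
      _ ≤ _ := by linarith
  linarith

lemma E1_sum (A : Finset (SimpleGraph V)) (k : ℕ) :
    (E1 A k).card = ∑ G ∈ A, ((E1 A k).filter fun t => t.1 = G).card :=
  Finset.card_eq_sum_card_fiberwise (f := fun t : SimpleGraph V × V × V => t.1) (t := A) (fun t ht => by
    have := (mem_E1.1 ht).1
    exact this)

lemma card_Y' [Nonempty V] (A : Finset (SimpleGraph V)) (k : ℕ) :
    (Y A k).card * (k * Fintype.card V) ≤ (E1 A k).card + (Y2 A).card * (k * Fintype.card V) := by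
  set n := Fintype.card V with hn
  set T := (Y A k).filter fun G => 2 * fr G ≤ n with hT
  have h1 : (Y A k).card ≤ T.card + (Y2 A).card := by
    refine le_trans (Finset.card_le_card ?_) (Finset.card_union_le _ _)
    intro G hG
    rw [Finset.mem_union]
    by_cases h : 2 * fr G ≤ n
    · exact Or.inl (Finset.mem_filter.2 ⟨hG, h⟩)
    · right
      exact Finset.mem_filter.2 ⟨(Finset.mem_filter.1 hG).1, by omega⟩
  have h2 : T.card * (k * n) ≤ (E1 A k).card := by
    rw [E1_sum, ← smul_eq_mul, ← Finset.sum_const]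
    refine le_trans (Finset.sum_le_sum (g := fun G => ((E1 A k).filter fun t => t.1 = G).card) ?_)
      (Finset.sum_le_sum_of_subset ((Finset.filter_subset _ _).trans (Finset.filter_subset _ _)))
    intro G hG
    have h3 := Finset.mem_filter.1 hG
    have h4 := Finset.mem_filter.1 h3.1
    obtain ⟨h5, h6⟩ := pairs_ge h4.1 (le_refl k) h4.2
    refine le_trans ?_ h6
    rw [← hn]
    have h7 : n ≤ 2 * (n - fr G) := by
      have := h3.2
      omega
    calc k * n ≤ k * (2 * (n - fr G)) := Nat.mul_le_mul_left _ h7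
      _ = _ := by ring
  calc (Y A k).card * (k * n) ≤ (T.card + (Y2 A).card) * (k * n) := Nat.mul_le_mul_right _ h1
    _ = T.card * (k * n) + (Y2 A).card * (k * n) := Nat.add_mul _ _ _
    _ ≤ _ := Nat.add_le_add_right h2 _

/-- the sharp bound for all thresholds -/
lemma W_all [Nonempty V] {A : Finset (SimpleGraph V)} (hA : BA A) (hne : A.Nonempty) {k : ℕ}
    (hk1 : 1 ≤ k) {r K : ℝ} (hr1 : 1 ≤ r) (hn : r ^ 2 = Fintype.card V) (hK1 : K = k) (hKn : K ≤ r ^ 2) :
    ((E1 A k).card : ℝ) * √K ≤ 357 * r ^ 2 * A.card := by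
  set n : ℝ := r ^ 2 with hndef
  have hr0 : 0 < r := by linarith
  have hn0 : 0 < n := by positivity
  have hK10 : 0 < K := by
    rw [hK1]
    exact_mod_cast hk1
  have hK11 : 1 ≤ K := by
    rw [hK1]
    exact_mod_cast hk1
  have ha : (0 : ℝ) < A.card := by
    exact_mod_cast Finset.card_pos.2 hne
  set a : ℝ := (A.card : ℝ) with hadef
  set W : ℝ := ((E1 A k).card : ℝ) with hW
  set S : ℝ := ((∑ t ∈ E1 A k, (fib A k (ad t)).card : ℕ) : ℝ) with hS
  set F : ℝ := ((F2 A k k).card : ℝ) with hF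
  set E : ℝ := ((E3 A k).card : ℝ) with hE
  set y : ℝ := ((Y A k).card : ℝ) with hy
  set z : ℝ := ((Y2 A).card : ℝ) with hz
  have i1 : W ^ 2 ≤ a * S := by
    have := cs_ineq hA k
    rw [hW, hadef, hS]
    exact_mod_cast this
  have i2 : S * K ≤ W * (10 * K + 2 * n) + 8 * K * (F * n) + 8 * (a * (2 * n * K + n * n)) + E * (2 * n * K) := by
    have := main_sum2 hA hk1
    rw [hS, hW, hF, hE, hn, hK1, hadef]
    exact_mod_cast this
  have i3 : F * K ≤ a * (3 * n) := by
    have := card_F2' hA (le_refl k) hk1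
    rw [hF, hadef, hn, hK1]
    exact_mod_cast this
  have i4 : E ≤ y * (2 * n) := by
    have := card_E3' hA k
    rw [hE, hy, hn]
    exact_mod_cast this
  have i6 : y * (K * n) ≤ W + z * (K * n) := by
    have := card_Y' A k
    rw [hy, hW, hK1, hn, hz]
    exact_mod_cast this
  have i7 : z * n ^ 2 ≤ 29000 * r * a := card_Y2 hA hne hr1 hn
  have hW0 : 0 ≤ W := by positivity
  have hnr : r ≤ n := by
    rw [hndef]
    nlinarith
  have hnK : n ≤ n ^ 2 / K := by
    rw [le_div_iff₀ hK10]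
    nlinarith
  have j2 : S ≤ (10 + 6 * n / K) * W + a * (116048 * n ^ 2 / K) := by
    have k1' : 8 * K * (F * n) ≤ 24 * n ^ 2 * a := by
      calc 8 * K * (F * n) = 8 * n * (F * K) := by ring
        _ ≤ 8 * n * (a * (3 * n)) := mul_le_mul_of_nonneg_left i3 (by positivity)
        _ = _ := by ring
    have k2' : E * (2 * n * K) ≤ 4 * n * W + 4 * K * (29000 * r * a) := by
      calc E * (2 * n * K) ≤ y * (2 * n) * (2 * n * K) := mul_le_mul_of_nonneg_right i4 (by positivity)
        _ = 4 * n * (y * (K * n)) := by ring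
        _ ≤ 4 * n * (W + z * (K * n)) := mul_le_mul_of_nonneg_left i6 (by positivity)
        _ = 4 * n * W + 4 * K * (z * n ^ 2) := by ring
        _ ≤ _ := by
          have := mul_le_mul_of_nonneg_left i7 (show (0 : ℝ) ≤ 4 * K by positivity)
          linarith
    have k4' : 8 * (a * (2 * n * K + n * n)) ≤ 24 * n ^ 2 * a := by
      have : n * K ≤ n * n := mul_le_mul_of_nonneg_left hKn hn0.le
      nlinarith
    have k5' : 4 * K * (29000 * r * a) ≤ 116000 * n ^ 2 * a := by
      have h1 : K * r ≤ n * n := mul_le_mul hKn hnr hr0.le hn0.le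
      have h2 := mul_le_mul_of_nonneg_right h1 ha.le
      nlinarith
    have k3 : S * K ≤ ((10 + 6 * n / K) * W + a * (116048 * n ^ 2 / K)) * K := by
      have : ((10 + 6 * n / K) * W + a * (116048 * n ^ 2 / K)) * K =
        W * (10 * K + 2 * n) + 24 * n ^ 2 * a + 24 * n ^ 2 * a + 4 * n * W + 116000 * n ^ 2 * a := by
        field_simp
        ring
      rw [this]
      refine i2.trans ?_
      have m1 := add_le_add (add_le_add (add_le_add (le_refl (W * (10 * K + 2 * n))) k1') k4') k2'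
      refine m1.trans ?_
      linarith only [k5']
    exact le_of_mul_le_mul_right k3 hK10
  have hq : W / a ≤ (10 + 6 * n / K) + √(116048 * n ^ 2 / K) := by
    apply quad (by positivity) (by positivity)
    have m1 : W ^ 2 ≤ a * ((10 + 6 * n / K) * W + a * (116048 * n ^ 2 / K)) :=
      i1.trans (mul_le_mul_of_nonneg_left j2 ha.le)
    rw [div_pow, div_le_iff₀ (by positivity)]
    calc W ^ 2 ≤ _ := m1
      _ = _ := by
        field_simp
  have hs : √K * √K = K := Real.mul_self_sqrt hK10.le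
  have hs0 : 0 < √K := Real.sqrt_pos.2 hK10
  have hs1 : 1 ≤ √K := Real.one_le_sqrt.2 hK11
  have hsn : √K ≤ r := by
    rw [Real.sqrt_le_left hr0.le]
    exact hKn
  have e1 : √(116048 * n ^ 2 / K) ≤ 341 * n / √K := by
    rw [Real.sqrt_le_left (by positivity), div_pow, Real.sq_sqrt hK10.le]
    apply div_le_div_of_nonneg_right _ hK10.le
    nlinarith [sq_nonneg n]
  rw [div_le_iff₀ ha] at hq
  have e2 : ((10 + 6 * n / K) + √(116048 * n ^ 2 / K)) * √K ≤ 357 * n := by
    have f1 : 10 * √K ≤ 10 * n := mul_le_mul_of_nonneg_left (hsn.trans hnr) (by norm_num)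
    have f2 : 6 * n / K * √K ≤ 6 * n := by
      rw [div_mul_eq_mul_div, div_le_iff₀ hK10]
      have : √K ≤ K := by nlinarith
      exact mul_le_mul_of_nonneg_left this (by positivity)
    have f3 : √(116048 * n ^ 2 / K) * √K ≤ 341 * n := by
      calc √(116048 * n ^ 2 / K) * √K ≤ 341 * n / √K * √K := mul_le_mul_of_nonneg_right e1 hs0.le
        _ = 341 * n := by field_simp
    calc ((10 + 6 * n / K) + √(116048 * n ^ 2 / K)) * √K =
          10 * √K + 6 * n / K * √K + √(116048 * n ^ 2 / K) * √K := by ring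
      _ ≤ 10 * n + 6 * n + 341 * n := add_le_add (add_le_add f1 f2) f3
      _ = 357 * n := by ring
  calc W * √K ≤ (((10 + 6 * n / K) + √(116048 * n ^ 2 / K)) * a) * √K := mul_le_mul_of_nonneg_right hq hs0.le
    _ = (((10 + 6 * n / K) + √(116048 * n ^ 2 / K)) * √K) * a := by ring
    _ ≤ 357 * n * a := mul_le_mul_of_nonneg_right e2 ha.le

/-- the graphs with many pairs at the scale `K` -/
noncomputable def Pm (A : Finset (SimpleGraph V)) (K : ℕ) : Finset (SimpleGraph V) :=
  A.filter fun G => 2 * (K * Fintype.card V) ≤ 9 * ((E1 A K).filter fun t => t.1 = G).card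

lemma card_Pm (A : Finset (SimpleGraph V)) (K : ℕ) :
    (Pm A K).card * (2 * (K * Fintype.card V)) ≤ 9 * (E1 A K).card := by
  rw [E1_sum, ← smul_eq_mul, ← Finset.sum_const, Finset.mul_sum]
  refine le_trans (Finset.sum_le_sum (g := fun G => 9 * ((E1 A K).filter fun t => t.1 = G).card) ?_)
    (Finset.sum_le_sum_of_subset (Finset.filter_subset _ _))
  intro G hG
  exact (Finset.mem_filter.1 hG).2

lemma tail_sub [Nonempty V] {A : Finset (SimpleGraph V)} {k0 : ℕ} (hk0 : 1 ≤ k0) :
    (A.filter fun G => 4 * k0 ≤ fr G).card ≤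
      ∑ i ∈ Finset.range (Nat.log 2 (Fintype.card V / (4 * k0)) + 1),
        ((Z A (4 * (2 ^ i * k0)) (2 ^ i * k0)).card + (Pm A (2 ^ i * k0)).card) := by
  set n := Fintype.card V with hn
  have hsub : (A.filter fun G => 4 * k0 ≤ fr G) ⊆
      (Finset.range (Nat.log 2 (n / (4 * k0)) + 1)).biUnion
        fun i => Z A (4 * (2 ^ i * k0)) (2 ^ i * k0) ∪ Pm A (2 ^ i * k0) := by
    intro G hG'
    obtain ⟨hG, hge⟩ := Finset.mem_filter.1 hG'
    have hq : fr G / (4 * k0) ≠ 0 := by
      have := Nat.div_pos hge (by omega)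
      omega
    set i := Nat.log 2 (fr G / (4 * k0)) with hi
    have h1 : 2 ^ i ≤ fr G / (4 * k0) := Nat.pow_log_le_self 2 hq
    have h2 : fr G / (4 * k0) < 2 ^ (i + 1) := Nat.lt_pow_succ_log_self (by norm_num) _
    have h1' : 2 ^ i * (4 * k0) ≤ fr G := (Nat.le_div_iff_mul_le (by omega)).1 h1
    have h2' : fr G < 2 ^ (i + 1) * (4 * k0) := (Nat.div_lt_iff_lt_mul (by omega)).1 h2
    rw [Finset.mem_biUnion]
    refine ⟨i, ?_, ?_⟩
    · rw [Finset.mem_range, Nat.lt_succ_iff]
      apply Nat.log_mono_right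
      exact Nat.div_le_div_right (fr_le G)
    set K := 2 ^ i * k0 with hK
    have h3 : 4 * K ≤ fr G := by
      calc 4 * K = 2 ^ i * (4 * k0) := by rw [hK]; ring
        _ ≤ _ := h1'
    have h4 : fr G ≤ 8 * K := by
      calc fr G ≤ 2 ^ (i + 1) * (4 * k0) := h2'.le
        _ = 8 * K := by rw [hK, pow_succ]; ring
    rw [Finset.mem_union]
    by_cases hZ : G ∈ Z A (4 * K) K
    · exact Or.inl hZ
    · right
      have hex : ∃ u v, ¬ G.Reachable u v ∧ K ≤ cs G u ∧ K ≤ cs G v := by
        by_contra hcon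
        apply hZ
        simp only [Z, Finset.mem_filter]
        refine ⟨hG, h3, fun u v huv h5 => hcon ⟨u, v, huv, h5⟩⟩
      obtain ⟨h5, h6⟩ := pairs_ge hG (le_refl K) hex
      rw [← hn] at h5 h6
      refine Finset.mem_filter.2 ⟨hG, ?_⟩
      rw [← hn]
      set r := n - fr G with hr
      have h7 : n ≤ 9 * r := by
        have := fr_le G
        omega
      calc 2 * (K * n) ≤ 2 * (K * (9 * r)) := Nat.mul_le_mul_left _ (Nat.mul_le_mul_left _ h7)
        _ = 9 * (2 * (K * r)) := by ring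
        _ ≤ _ := Nat.mul_le_mul_left _ h6
  refine (Finset.card_le_card hsub).trans (Finset.card_biUnion_le.trans ?_)
  exact Finset.sum_le_sum fun i _ => Finset.card_union_le _ _

/-- the tail bound at the multiples of `4` -/
lemma tail4 [Nonempty V] {A : Finset (SimpleGraph V)} (hA : BA A) (hne : A.Nonempty)
    {r : ℝ} (hr1 : 1 ≤ r) (hn : r ^ 2 = Fintype.card V) {k0 : ℕ} (hk0 : 1 ≤ k0) :
    ((A.filter fun G => 4 * k0 ≤ fr G).card : ℝ) * (k0 * √k0) ≤ 3214 * A.card := by
  have hr0 : 0 < r := by linarith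
  have ha : (0 : ℝ) < A.card := by
    exact_mod_cast Finset.card_pos.2 hne
  have hk0r : (1 : ℝ) ≤ k0 := by exact_mod_cast hk0
  have hk0p : (0 : ℝ) < k0 := by linarith
  have hs0 : 0 < √(k0 : ℝ) := Real.sqrt_pos.2 hk0p
  set n := Fintype.card V with hnn
  rcases lt_or_ge n (4 * k0) with hlt | hge
  · have : (A.filter fun G => 4 * k0 ≤ fr G) = ∅ := by
      apply Finset.filter_eq_empty_iff.2
      intro G _ h
      have := fr_le G
      omega
    rw [this]
    simp only [Finset.card_empty, Nat.cast_zero, zero_mul]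
    positivity
  · set I := Nat.log 2 (n / (4 * k0)) with hI
    have g4 : 2 ^ I * (4 * k0) ≤ n := by
      have e1 : n / (4 * k0) ≠ 0 := by
        have := Nat.div_pos hge (by omega)
        omega
      exact (Nat.le_div_iff_mul_le (by omega)).1 (Nat.pow_log_le_self 2 e1)
    have g5 : (2 : ℝ) ^ I * k0 ≤ r ^ 2 := by
      have h1 : (2 : ℝ) ^ I * (4 * k0) ≤ r ^ 2 := by
        rw [hn]
        exact_mod_cast g4
      have h2 : (0 : ℝ) ≤ 2 ^ I * k0 := by positivity
      linarith
    have hsum : ((A.filter fun G => 4 * k0 ≤ fr G).card : ℝ) ≤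
        ∑ i ∈ Finset.range (I + 1),
        (((Z A (4 * (2 ^ i * k0)) (2 ^ i * k0)).card : ℝ) + ((Pm A (2 ^ i * k0)).card : ℝ)) := by
      exact_mod_cast tail_sub (A := A) hk0
    have hterm : ∀ i ∈ Finset.range (I + 1),
        (((Z A (4 * (2 ^ i * k0)) (2 ^ i * k0)).card : ℝ) + ((Pm A (2 ^ i * k0)).card : ℝ)) ≤
          1607 * A.card / (k0 * √k0) / 2 ^ i := by
      intro i hi
      rw [Finset.mem_range, Nat.lt_succ_iff] at hi
      set Kn := 2 ^ i * k0 with hKn
      set K : ℝ := (2 : ℝ) ^ i * k0 with hK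
      have hKc : (Kn : ℝ) = K := by rw [hKn, hK]; push_cast; ring
      have hp : (1 : ℝ) ≤ 2 ^ i := one_le_pow₀ (by norm_num)
      have hKk : (k0 : ℝ) ≤ K := by
        rw [hK]
        nlinarith
      have hK1 : 1 ≤ K := hk0r.trans hKk
      have hK0 : 0 < K := by linarith
      have hKn1 : 1 ≤ Kn := by
        have : (1 : ℝ) ≤ Kn := by rw [hKc]; exact hK1
        exact_mod_cast this
      have hKle : K ≤ r ^ 2 := by
        refine le_trans ?_ g5
        rw [hK]
        exact mul_le_mul_of_nonneg_right (pow_le_pow_right₀ (by norm_num) hi) (by positivity)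
      have hsK0 : 0 < √K := Real.sqrt_pos.2 hK0
      have hsK : √K ≤ K := by
        have h1 : 1 ≤ √K := Real.one_le_sqrt.2 hK1
        have h2 : √K * √K = K := Real.mul_self_sqrt hK0.le
        nlinarith
      have hsk : √(k0 : ℝ) ≤ √K := Real.sqrt_le_sqrt hKk
      have z1 : ((Z A (4 * Kn) Kn).card : ℝ) * (2 * (K * K)) ≤ A.card := by
        have h1 := card_Z hA (f := 4 * Kn) (k := Kn) le_rfl
        have h2 : ((Z A (4 * Kn) Kn).card : ℝ) * ((4 * Kn) * (4 * Kn)) ≤ 8 * A.card := by exact_mod_cast h1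
        rw [hKc] at h2
        linarith
      have z2 : ((Z A (4 * Kn) Kn).card : ℝ) * (2 * (K * √K)) ≤ A.card := by
        refine le_trans (mul_le_mul_of_nonneg_left ?_ (Nat.cast_nonneg _)) z1
        nlinarith
      have p1 : ((Pm A Kn).card : ℝ) * (2 * (K * r ^ 2)) ≤ 9 * (E1 A Kn).card := by
        have h1 := card_Pm A Kn
        rw [← hnn] at h1
        rw [hn, ← hKc]
        exact_mod_cast h1
      have p2 := W_all hA hne hKn1 hr1 hn hKc.symm hKle
      have p3 : ((Pm A Kn).card : ℝ) * (2 * (K * √K)) ≤ 3213 * A.card := by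
        have h1 : ((Pm A Kn).card : ℝ) * (2 * (K * √K)) * r ^ 2 ≤ 3213 * A.card * r ^ 2 := by
          calc ((Pm A Kn).card : ℝ) * (2 * (K * √K)) * r ^ 2 =
                (((Pm A Kn).card : ℝ) * (2 * (K * r ^ 2))) * √K := by ring
            _ ≤ (9 * (E1 A Kn).card) * √K := mul_le_mul_of_nonneg_right p1 hsK0.le
            _ = 9 * (((E1 A Kn).card : ℝ) * √K) := by ring
            _ ≤ 9 * (357 * r ^ 2 * A.card) := mul_le_mul_of_nonneg_left p2 (by norm_num)
            _ = _ := by ring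
        exact le_of_mul_le_mul_right h1 (by positivity)
      have p4 : (((Z A (4 * Kn) Kn).card : ℝ) + ((Pm A Kn).card : ℝ)) * (K * √K) ≤ 1607 * A.card := by
        linarith
      rw [div_div, le_div_iff₀ (by positivity)]
      refine le_trans (mul_le_mul_of_nonneg_left ?_ (by positivity)) p4
      calc (k0 : ℝ) * √k0 * 2 ^ i = K * √k0 := by rw [hK]; ring
        _ ≤ K * √K := mul_le_mul_of_nonneg_left hsk hK0.le
    have hfin : ((A.filter fun G => 4 * k0 ≤ fr G).card : ℝ) ≤ 2 * (1607 * A.card / (k0 * √k0)) := by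
      refine hsum.trans ((Finset.sum_le_sum hterm).trans ?_)
      rw [geo2]
      have : 0 ≤ 1607 * (A.card : ℝ) / (k0 * √k0) / 2 ^ I := by positivity
      linarith
    calc ((A.filter fun G => 4 * k0 ≤ fr G).card : ℝ) * (k0 * √k0)
        ≤ (2 * (1607 * A.card / (k0 * √k0))) * (k0 * √k0) := mul_le_mul_of_nonneg_right hfin (by positivity)
      _ = 3214 * A.card := by
        field_simp
        ring

/-- the tail bound -/
lemma tail_all [Nonempty V] {A : Finset (SimpleGraph V)} (hA : BA A) (hne : A.Nonempty)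
    {r : ℝ} (hr1 : 1 ≤ r) (hn : r ^ 2 = Fintype.card V) {k : ℕ} (hk : 1 ≤ k) :
    ((A.filter fun G => k ≤ fr G).card : ℝ) / A.card ≤ 60000 / (k * √k) := by
  have ha : (0 : ℝ) < A.card := by
    exact_mod_cast Finset.card_pos.2 hne
  have hkr : (1 : ℝ) ≤ k := by exact_mod_cast hk
  have hkp : (0 : ℝ) < k := by linarith
  have hs0 : 0 < √(k : ℝ) := Real.sqrt_pos.2 hkp
  rw [div_le_div_iff₀ ha (by positivity)]
  rcases Nat.lt_or_ge k 4 with h4 | h4
  · have h1 : ((A.filter fun G => k ≤ fr G).card : ℝ) ≤ A.card := by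
      exact_mod_cast Finset.card_filter_le _ _
    have h2 : (k : ℝ) ≤ 4 := by exact_mod_cast h4.le
    have h3 : √(k : ℝ) ≤ 4 := by
      rw [Real.sqrt_le_left (by norm_num)]
      linarith
    calc ((A.filter fun G => k ≤ fr G).card : ℝ) * (k * √k) ≤ A.card * (4 * 4) := by
          apply mul_le_mul h1 (mul_le_mul h2 h3 hs0.le (by norm_num)) (by positivity) ha.le
      _ ≤ 60000 * A.card := by linarith
  · set k0 := k / 4 with hk0
    have hk01 : 1 ≤ k0 := by omega
    have h7 : k ≤ 7 * k0 := by omega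
    have h8 : 4 * k0 ≤ k := by omega
    have h9 := tail4 hA hne hr1 hn hk01
    have hk0p : (0 : ℝ) < k0 := by exact_mod_cast hk01
    have h10 : ((A.filter fun G => k ≤ fr G).card : ℝ) ≤ (A.filter fun G => 4 * k0 ≤ fr G).card := by
      have : (A.filter fun G => k ≤ fr G) ⊆ (A.filter fun G => 4 * k0 ≤ fr G) := by
        intro G hG
        rw [Finset.mem_filter] at hG ⊢
        exact ⟨hG.1, h8.trans hG.2⟩
      exact_mod_cast Finset.card_le_card this
    have h11 : (k : ℝ) ≤ 7 * k0 := by exact_mod_cast h7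
    have h12 : √(k : ℝ) ≤ 8 / 3 * √(k0 : ℝ) := by
      rw [Real.sqrt_le_left (by positivity), mul_pow, Real.sq_sqrt hk0p.le]
      nlinarith
    have h13 : (k : ℝ) * √k ≤ 56 / 3 * (k0 * √k0) := by
      calc (k : ℝ) * √k ≤ (7 * k0) * (8 / 3 * √(k0 : ℝ)) := mul_le_mul h11 h12 hs0.le (by positivity)
        _ = _ := by ring
    calc ((A.filter fun G => k ≤ fr G).card : ℝ) * (k * √k)
        ≤ (A.filter fun G => 4 * k0 ≤ fr G).card * (56 / 3 * (k0 * √k0)) :=
          mul_le_mul h10 h13 (by positivity) (by positivity)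
      _ = 56 / 3 * (((A.filter fun G => 4 * k0 ≤ fr G).card : ℝ) * (k0 * √k0)) := by ring
      _ ≤ 56 / 3 * (3214 * A.card) := mul_le_mul_of_nonneg_left h9 (by norm_num)
      _ ≤ 60000 * A.card := by linarith

end

end Pool.Agent.H25.CP
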